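import Mathlib

/-!
Ramsey arrows for 3-graphs versus complete 3-graphs, lexicographic products, doublings, and the
classes `Gen F₀`.
-/

namespace Pool.Agent.DXR

open Finset

/-- The Ramsey arrow for a 3-graph `F` (a set of triples of the finite type `α`) and `K_n`: for
every red/blue colouring of the triples of an `N`-set (`red e` says that the triple `e` is red)
there is a red copy of `F` or a blue complete 3-graph on `n` vertices. -/
def Arrows {α : Type} (F : Finset (Finset α)) (n N : ℕ) : Prop :=
  ∀ red : Finset (Fin N) → Prop,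
    (∃ φ : α ↪ Fin N, ∀ e ∈ F, red (e.map φ)) ∨
      ∃ S : Finset (Fin N), S.card = n ∧ ∀ e ⊆ S, e.card = 3 → ¬ red e

/-- The lexicographic product of the 3-graphs `F` and `G`: every vertex `v` of `F` is replaced by a
copy `{v} × β` of `G`; the edges are all `{(v, c v) : v ∈ g}` with `g` an edge of `F` and
`{(v, w) : w ∈ g}` with `g` an edge of `G`. -/
def Lex {α β : Type} (F : Finset (Finset α)) (G : Finset (Finset β)) : Set (Finset (α × β)) :=
  {e | (∃ g ∈ F, ∃ c : α → β, e = g.map ⟨fun v => (v, c v), fun _ _ h => congrArg Prod.fst h⟩) ∨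
    ∃ v : α, ∃ g ∈ G, e = g.map ⟨fun w => (v, w), fun _ _ h => congrArg Prod.snd h⟩}

/-- The doubling of the 3-graph `F`: two copies `some (v, false)`, `some (v, true)` of every vertex
`v` and one new vertex `none`; the edges are all triples consisting of one copy of each of the
three vertices of an edge of `F`, and the triples of the new vertex with the two copies of a
vertex. -/
def Dbl {α : Type} (F : Finset (Finset α)) : Set (Finset (Option (α × Bool))) :=
  {e | (∃ g ∈ F, ∃ c : α → Bool, e = g.map ⟨fun v => some (v, c v), fun _ _ h =>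
      congrArg Prod.fst (Option.some.inj h)⟩) ∨
    ∃ v : α, ∀ w, w ∈ e ↔ w = none ∨ w = some (v, false) ∨ w = some (v, true)}

/-- `H` is isomorphic to a (not necessarily induced) subgraph of `F`. -/
def EmbedsIn {α β : Type} (H : Finset (Finset α)) (F : Set (Finset β)) : Prop :=
  ∃ f : α ↪ β, ∀ e ∈ H, e.map f ∈ F

/-- The class of 3-graphs generated by the 3-graph `F₀` and the 3-graphs with a labelling by
nonzero vectors over the field with two elements, by lexicographic products, doublings and passing
to subgraphs. -/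
inductive Gen {k₀ : ℕ} (F₀ : Finset (Finset (Fin k₀))) :
    (k : ℕ) → Finset (Finset (Fin k)) → Prop
  | base : Gen F₀ k₀ F₀
  | label (k d : ℕ) (F : Finset (Finset (Fin k))) (a : Fin k → Fin d → ZMod 2) :
      (∀ e ∈ F, e.card = 3) → (∀ x, a x ≠ 0) → (∀ e ∈ F, ∑ x ∈ e, a x = 0) → Gen F₀ k F
  | lex (k l m : ℕ) (F : Finset (Finset (Fin k))) (G : Finset (Finset (Fin l)))
      (H : Finset (Finset (Fin m))) : Gen F₀ k F → Gen F₀ l G → EmbedsIn H (Lex F G) → Gen F₀ m H
  | dbl (k m : ℕ) (F : Finset (Finset (Fin k))) (H : Finset (Finset (Fin m))) :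
      Gen F₀ k F → EmbedsIn H (Dbl F) → Gen F₀ m H

end Pool.Agent.DXR
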