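import Pool.Agent.DXR.Stmts

/-!
The doubling operation costs only a polylogarithmic factor.
-/

namespace Pool.Agent.DXR

open Finset

namespace Dbl

variable {V : Type}

theorem big_refl (A : Finset V) : Big 0 A A := ⟨Subset.refl _, by simp⟩

theorem big_mono {c d : ℕ} (h : c ≤ d) {A B : Finset V} (hb : Big c A B) : Big d A B :=
  ⟨hb.1, hb.2.trans (Nat.mul_le_mul_right _ (Nat.pow_le_pow_right (by norm_num) h))⟩

theorem big_trans {c d : ℕ} {A B C : Finset V} (h1 : Big c A B) (h2 : Big d B C) :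
    Big (c + d) A C := by
  refine ⟨h1.1.trans h2.1, ?_⟩
  calc C.card ≤ 2 ^ d * B.card := h2.2
    _ ≤ 2 ^ d * (2 ^ c * A.card) := Nat.mul_le_mul_left _ h1.2
    _ = 2 ^ (c + d) * A.card := by rw [pow_add]; ring

theorem big_card {c m : ℕ} {A B : Finset V} (h : Big c A B) (hB : 2 ^ (c + m) ≤ B.card) :
    2 ^ m ≤ A.card := by
  have h1 := hB.trans h.2
  rw [pow_add] at h1
  exact Nat.le_of_mul_le_mul_left h1 (by positivity)

theorem select (bad : ℕ → Finset V → Prop) (D : ℕ → ℕ) (k : ℕ) (U : Finset V)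
    (h : ∀ i < k, ∀ W, Big (∑ l ∈ range k, D l) W U → ∃ W', Big (D i) W' W ∧ ¬ bad i W') :
    ∃ A, Big (∑ l ∈ range k, D l) A U ∧
      ∀ i < k, ∃ W, Big (∑ l ∈ range i, D l) A W ∧ ¬ bad i W := by
  induction k generalizing U with
  | zero => exact ⟨U, by simpa using big_refl U, fun i hi => absurd hi (Nat.not_lt_zero _)⟩
  | succ k ih =>
      obtain ⟨W, hW1, hW2⟩ := h k (Nat.lt_succ_self k) U (big_mono (Nat.zero_le _) (big_refl U))
      obtain ⟨A, hA1, hA2⟩ := ih W (by
        intro i hi W' hW'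
        apply h i (Nat.lt_succ_of_lt hi) W'
        rw [sum_range_succ]
        exact big_trans hW' hW1)
      refine ⟨A, ?_, ?_⟩
      · rw [sum_range_succ]
        exact big_trans hA1 hW1
      · intro i hi
        rcases Nat.lt_succ_iff_lt_or_eq.1 hi with h1 | rfl
        · exact hA2 i h1
        · exact ⟨W, hA1, hW2⟩

/-- the property used for the doubling -/
def Gd (rd : V → V → V → Prop) : (Bool → V) → V → Prop := fun κ t => rd (κ false) (κ true) t

theorem le_gc {W J T : Type} [Fintype J] (Good : (J → V) → W → Prop) (Y : Finset V)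
    (Z : Finset W) (S : Finset T) (f : T → (J → V) × W)
    (hf : ∀ q ∈ S, (∀ j, (f q).1 j ∈ Y) ∧ (f q).2 ∈ Z ∧ Good (f q).1 (f q).2)
    (hinj : Set.InjOn f S) : S.card ≤ gc Good Y Z := by
  classical
  unfold gc
  apply card_le_card_of_injOn f ?_ hinj
  intro q hq
  obtain ⟨h1, h2, h3⟩ := hf q hq
  rw [mem_coe, mem_filter, mem_product, Fintype.mem_piFinset]
  exact ⟨⟨h1, h2⟩, h3⟩

theorem ec_le_gc (rd : V → V → V → Prop) (Y Z : Finset V) : ec rd Y Y Z ≤ gc (Gd rd) Y Z := by
  classical
  unfold ec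
  apply le_gc (Gd rd) Y Z _ (fun q => ((fun b => cond b q.2.1 q.1), q.2.2))
  · intro q hq
    rw [mem_filter, mem_product, mem_product] at hq
    refine ⟨?_, hq.1.2.2, hq.2⟩
    intro b
    cases b
    · exact hq.1.1
    · exact hq.1.2.1
  · intro q _ q' _ h
    simp only [Prod.mk.injEq] at h
    have h1 := congrFun h.1 false
    have h2 := congrFun h.1 true
    simp only [cond_false, cond_true] at h1 h2
    exact Prod.ext h1 (Prod.ext h2 h.2)

theorem exists_of_cntr_pos {W I J : Type} [Fintype I] [Fintype J] (P : (I → V) → Prop)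
    (Good : (J → V) → W → Prop) (A : Finset V) (B : Finset W) (h : 0 < cntr P Good A B) :
    ∃ (ω : I → J → V) (t : W), (∀ i j, ω i j ∈ A) ∧ t ∈ B ∧
      (∀ c : I → J, P (fun i => ω i (c i))) ∧ ∀ i, Good (ω i) t := by
  classical
  unfold cntr at h
  obtain ⟨⟨ω, t⟩, hq⟩ := card_pos.1 h
  rw [mem_filter, mem_product, Fintype.mem_piFinset] at hq
  obtain ⟨⟨hω, ht⟩, hmix, hgood⟩ := hq
  simp only [Fintype.mem_piFinset] at hω
  exact ⟨ω, t, hω, ht, hmix, hgood⟩

theorem extract (hS : S_SUPER) (hT : S_STEP) {I : Type} [Fintype I] (rd : V → V → V → Prop)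
    (E : I → I → I → Prop) (τ : ℕ) (hrd : IsRed rd) (hE : Thr rd E (2 ^ τ)) (A B : Finset V)
    (hA : 2 ^ τ ≤ A.card) (hB : B.Nonempty) (α β p : ℕ → ℕ)
    (hlev : ∀ i < Fintype.card I, Fintype.card I * (τ + 1) + α i + 1 ≤ β i ∧
      2 * β i + p i ≤ α (i + 1) ∧ Rob (Gd rd) (β i) (p i) A B) :
    ∃ φ : Option (I × Bool) → V, (∀ i, φ i ∈ A ∨ φ i ∈ B) ∧ IsCopy rd (DE E) φ := by
  classical
  set s := Fintype.card I with hs
  have h1 := hS V I rd E (2 ^ τ) hE A hA
  rw [← hs] at h1
  have h2 : 2 ^ s * A.card ^ s ≤ 2 ^ (s * (τ + 1)) * cnt A (IsCopy rd E) := by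
    calc 2 ^ s * A.card ^ s ≤ 2 ^ s * ((2 ^ τ) ^ s * cnt A (IsCopy rd E)) :=
          Nat.mul_le_mul_left _ h1
      _ = 2 ^ (s * (τ + 1)) * cnt A (IsCopy rd E) := by
          rw [← pow_mul, ← mul_assoc, ← pow_add]
          congr 2
          ring
  have h3 := hT V V I Bool A B (IsCopy rd E) (Gd rd) (s * (τ + 1)) α β p h2 (by
    intro i hi
    obtain ⟨h4, h5, h6⟩ := hlev i hi
    exact ⟨h4, by simpa using h5, h6⟩)
  have hApos : 0 < A.card := lt_of_lt_of_le (by positivity) hA
  have h4 : 0 < cntr (IsCopy rd E) (Gd rd) A B := by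
    rcases Nat.eq_zero_or_pos (cntr (IsCopy rd E) (Gd rd) A B) with h | h
    · rw [h, mul_zero] at h3
      have : 0 < A.card ^ (Fintype.card Bool * Fintype.card I) * B.card :=
        Nat.mul_pos (pow_pos hApos _) (card_pos.2 hB)
      omega
    · exact h
  obtain ⟨ω, t, hω, ht, hmix, hgood⟩ := exists_of_cntr_pos _ _ _ _ h4
  have hne : ∀ v, ω v false ≠ ω v true := fun v => hrd.ne12 _ _ _ (hgood v)
  have hsym3 : ∀ x y z, rd x y z → x ≠ z := fun x y z h =>
    hrd.ne12 _ _ _ (hrd.swap23 _ _ _ h)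
  have ht1 : ∀ v b, ω v b ≠ t := by
    intro v b
    cases b
    · exact hsym3 _ _ _ (hgood v)
    · exact hsym3 _ _ _ (hrd.swap12 _ _ _ (hgood v))
  have hsome : ∀ v w b c, ω v b = ω w c → v = w := by
    intro v w b c h
    by_contra hvw
    have h5 := (hmix (fun u => if u = v then b else c)).1
    apply hvw
    apply h5
    simp only [if_true]
    rw [if_neg (Ne.symm hvw)]
    exact h
  refine ⟨fun o => o.elim t (fun p => ω p.1 p.2), ?_, ?_, ?_⟩
  · intro o
    cases o with
    | none => exact Or.inr ht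
    | some p => exact Or.inl (hω p.1 p.2)
  · intro o o' h
    cases o with
    | none =>
        cases o' with
        | none => rfl
        | some p => exact absurd h.symm (ht1 p.1 p.2)
    | some p =>
        cases o' with
        | none => exact absurd h (ht1 p.1 p.2)
        | some q =>
            simp only [Option.elim_some] at h
            have h6 := hsome _ _ _ _ h
            obtain ⟨v, b⟩ := p
            obtain ⟨w, c⟩ := q
            simp only at h h6
            subst h6
            have h7 : b = c := by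
              by_contra hbc
              cases b <;> cases c
              · exact hbc rfl
              · exact hne v h
              · exact hne v h.symm
              · exact hbc rfl
            rw [h7]
  · have hgb : ∀ v b c, b ≠ c → rd (ω v b) (ω v c) t := by
      intro v b c hbc
      cases b <;> cases c
      · exact absurd rfl hbc
      · exact hgood v
      · exact hrd.swap12 _ _ _ (hgood v)
      · exact absurd rfl hbc
    intro x y z hxyz
    match x, y, z, hxyz with
    | some a, some b, some c, h =>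
        have h0 := (hmix (fun _ => false)).2 a.1 b.1 c.1 h
        have hab : a.1 ≠ b.1 := fun h' => hrd.ne12 _ _ _ h0 (by rw [h'])
        have hac : a.1 ≠ c.1 := fun h' => hsym3 _ _ _ h0 (by rw [h'])
        have hbc : b.1 ≠ c.1 := fun h' => hsym3 _ _ _ (hrd.swap12 _ _ _ h0) (by rw [h'])
        have h8 := (hmix (fun u => if u = a.1 then a.2 else if u = b.1 then b.2 else c.2)).2
          a.1 b.1 c.1 h
        simp only [if_true] at h8
        rw [if_neg hab.symm, if_neg hac.symm, if_neg hbc.symm] at h8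
        exact h8
    | none, some b, some c, h =>
        have h9 := hgb b.1 b.2 c.2 h.2
        have h10 : rd t (ω b.1 b.2) (ω b.1 c.2) := hrd.swap12 _ _ _ (hrd.swap23 _ _ _ h9)
        have h11 : b.1 = c.1 := h.1
        simp only [Option.elim_none, Option.elim_some]
        rw [← h11]
        exact h10
    | some a, none, some c, h =>
        have h9 := hgb a.1 a.2 c.2 h.2
        have h11 : a.1 = c.1 := h.1
        simp only [Option.elim_none, Option.elim_some]
        rw [← h11]
        exact hrd.swap23 _ _ _ h9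
    | some a, some b, none, h =>
        have h9 := hgb a.1 a.2 b.2 h.2
        have h11 : a.1 = b.1 := h.1
        simp only [Option.elim_none, Option.elim_some]
        rw [← h11]
        exact h9
    | none, none, none, h => exact absurd h id
    | none, none, some _, h => exact absurd h id
    | none, some _, none, h => exact absurd h id
    | some _, none, none, h => exact absurd h id

/-! ### parameters -/

/-- inner parameters: `(α i, ∑_{l < i} L C_l)` -/
def inn (a c L : ℕ) : ℕ → ℕ × ℕ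
  | 0 => (0, 0)
  | i + 1 =>
    (2 * (a + (inn a c L i).1 + 1) +
        (3 * L * (a + (inn a c L i).1 + 1 + c + (inn a c L i).2) + 3 * L + 2),
      (inn a c L i).2 + L * (a + (inn a c L i).1 + 1 + c + (inn a c L i).2))

def iC (a c L i : ℕ) : ℕ := a + (inn a c L i).1 + 1 + c + (inn a c L i).2

def iP (a c L i : ℕ) : ℕ := 3 * L * iC a c L i + 3 * L + 2

theorem inn_sum (a c L i : ℕ) : (inn a c L i).2 = ∑ l ∈ range i, L * iC a c L l := by
  induction i with
  | zero => simp [inn]
  | succ i ih =>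
      rw [sum_range_succ, ← ih]
      rfl

theorem iC_succ (a c L i : ℕ) (hL : 1 ≤ L) : iC a c L (i + 1) ≤ 12 * L * iC a c L i := by
  have h0 : iC a c L (i + 1) = a + (2 * (a + (inn a c L i).1 + 1) +
        (3 * L * iC a c L i + 3 * L + 2)) + 1 + c +
      ((inn a c L i).2 + L * iC a c L i) := rfl
  have h1 : a + (inn a c L i).1 + 1 + c + (inn a c L i).2 = iC a c L i := rfl
  have h2 : 1 ≤ iC a c L i := by omega
  have h3 : L ≤ L * iC a c L i := Nat.le_mul_of_pos_right _ h2
  have h4 : iC a c L i ≤ L * iC a c L i := Nat.le_mul_of_pos_left _ hL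
  have h5 : 12 * L * iC a c L i = 12 * (L * iC a c L i) := by ring
  have h6 : 3 * L * iC a c L i = 3 * (L * iC a c L i) := by ring
  rw [h0, h5, h6]
  omega

theorem iC_mono (a c L i : ℕ) : iC a c L i ≤ iC a c L (i + 1) := by
  have h0 : iC a c L (i + 1) = a + (2 * (a + (inn a c L i).1 + 1) +
        (3 * L * iC a c L i + 3 * L + 2)) + 1 + c +
      ((inn a c L i).2 + L * iC a c L i) := rfl
  have h1 : a + (inn a c L i).1 + 1 + c + (inn a c L i).2 = iC a c L i := rfl
  rw [h0]
  omega

theorem iC_le_of_le (a c L : ℕ) {i j : ℕ} (h : i ≤ j) : iC a c L i ≤ iC a c L j :=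
  monotone_nat_of_le_succ (iC_mono a c L) h

theorem iC_bound (a c L : ℕ) (hL : 1 ≤ L) (i : ℕ) :
    iC a c L i ≤ (12 * L) ^ i * (a + 1 + c) := by
  induction i with
  | zero => simp [iC, inn]
  | succ i ih =>
      calc iC a c L (i + 1) ≤ 12 * L * iC a c L i := iC_succ a c L i hL
        _ ≤ 12 * L * ((12 * L) ^ i * (a + 1 + c)) := Nat.mul_le_mul_left _ ih
        _ = (12 * L) ^ (i + 1) * (a + 1 + c) := by rw [pow_succ]; ring

/-- outer parameters -/
def out (a L s : ℕ) : ℕ → ℕ × ℕ
  | 0 => (0, 0)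
  | j + 1 =>
    (2 * (a + (out a L s j).1 + 1) +
        3 * iC a (a + (out a L s j).1 + 1 + (out a L s j).2) L s,
      (out a L s j).2 + (inn a (a + (out a L s j).1 + 1 + (out a L s j).2) L s).2)

def oc (a L s j : ℕ) : ℕ := a + (out a L s j).1 + 1 + (out a L s j).2

theorem out_sum (a L s j : ℕ) :
    (out a L s j).2 = ∑ l ∈ range j, (inn a (oc a L s l) L s).2 := by
  induction j with
  | zero => simp [out]
  | succ j ih =>
      rw [sum_range_succ, ← ih]
      rfl

theorem oc_succ_eq (a L s j : ℕ) : oc a L s (j + 1) =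
    a + (2 * (a + (out a L s j).1 + 1) + 3 * iC a (oc a L s j) L s) + 1 +
      ((out a L s j).2 + (inn a (oc a L s j) L s).2) := rfl

theorem oc_succ (a L s j : ℕ) (hL : 1 ≤ L) :
    oc a L s (j + 1) ≤ 11 * (12 * L) ^ s * oc a L s j := by
  rw [oc_succ_eq]
  have h1 : a + (out a L s j).1 + 1 + (out a L s j).2 = oc a L s j := rfl
  have h2 : (inn a (oc a L s j) L s).2 ≤ iC a (oc a L s j) L s := by
    unfold iC
    omega
  have h3 := iC_bound a (oc a L s j) L hL s
  have h4 : (12 * L) ^ s * (a + 1 + oc a L s j) ≤ (12 * L) ^ s * (2 * oc a L s j) :=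
    Nat.mul_le_mul_left _ (by omega)
  have h5 : oc a L s j ≤ (12 * L) ^ s * oc a L s j :=
    Nat.le_mul_of_pos_left _ (by positivity)
  have h6 : (12 * L) ^ s * (2 * oc a L s j) = 2 * ((12 * L) ^ s * oc a L s j) := by ring
  have h7 : 11 * (12 * L) ^ s * oc a L s j = 11 * ((12 * L) ^ s * oc a L s j) := by ring
  rw [h7]
  omega

theorem oc_mono (a L s j : ℕ) : oc a L s j ≤ oc a L s (j + 1) := by
  rw [oc_succ_eq]
  have h1 : a + (out a L s j).1 + 1 + (out a L s j).2 = oc a L s j := rfl
  omega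

theorem oc_le_of_le (a L s : ℕ) {i j : ℕ} (h : i ≤ j) : oc a L s i ≤ oc a L s j :=
  monotone_nat_of_le_succ (oc_mono a L s) h

theorem oc_bound (a L s : ℕ) (hL : 1 ≤ L) (j : ℕ) :
    oc a L s j ≤ (11 * (12 * L) ^ s) ^ j * (a + 1) := by
  induction j with
  | zero => simp [oc, out]
  | succ j ih =>
      calc oc a L s (j + 1) ≤ 11 * (12 * L) ^ s * oc a L s j := oc_succ a L s j hL
        _ ≤ 11 * (12 * L) ^ s * ((11 * (12 * L) ^ s) ^ j * (a + 1)) := Nat.mul_le_mul_left _ ih
        _ = (11 * (12 * L) ^ s) ^ (j + 1) * (a + 1) := by rw [pow_succ]; ring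

theorem iC_le_oc (a L s j : ℕ) : 3 * iC a (oc a L s j) L s ≤ oc a L s (j + 1) := by
  rw [oc_succ_eq]
  omega

theorem ec_rot (rd : V → V → V → Prop) (hrd : IsRed rd) {A' B' Y Z : Finset V} (hA : A' ⊆ Z)
    (hB : B' ⊆ Y) : ec rd A' B' B' ≤ ec rd Y Y Z := by
  classical
  unfold ec
  apply card_le_card_of_injOn (fun q => (q.2.1, q.2.2, q.1))
  · intro q hq
    rw [mem_coe, mem_filter, mem_product, mem_product] at hq ⊢
    exact ⟨⟨hB hq.1.2.1, hB hq.1.2.2, hA hq.1.1⟩, hrd.swap23 _ _ _ (hrd.swap12 _ _ _ hq.2)⟩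
  · intro q _ q' _ h
    simp only [Prod.mk.injEq] at h
    exact Prod.ext h.2.2 (Prod.ext h.1 h.2.1)

theorem big_nonempty {c : ℕ} {A B : Finset V} (h : Big c A B) (hB : B.Nonempty) :
    A.Nonempty := by
  rw [nonempty_iff_ne_empty]
  rintro rfl
  have h1 := h.2
  rw [card_empty, mul_zero] at h1
  have h2 := card_pos.2 hB
  omega

theorem inner (hTr : S_TREE) (hS : S_SUPER) (hT : S_STEP) {I : Type} [Fintype I]
    (rd : V → V → V → Prop) (E : I → I → I → Prop) (L τ : ℕ) (hrd : IsRed rd)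
    (hNB : NoBlue rd L) (hE : Thr rd E (2 ^ τ)) (a s : ℕ) (hs : s = Fintype.card I)
    (ha : a = s * (τ + 1)) (c M : ℕ) (W : Finset V) (hW : 2 ^ M ≤ W.card)
    (hM1 : (inn a c L s).2 + (L * iC a c L s + 2 * L + 1) ≤ M)
    (hM2 : c + (inn a c L s).2 + τ ≤ M)
    (hno : ¬ ∃ φ : Option (I × Bool) → V, (∀ i, φ i ∈ W) ∧ IsCopy rd (DE E) φ) :
    ∃ U', Big (inn a c L s).2 U' W ∧ ¬ One rd c (3 * iC a c L s) U' := by
  classical
  by_contra hcon
  push Not at hcon
  have hsum : (inn a c L s).2 = ∑ l ∈ range s, L * iC a c L l := inn_sum a c L s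
  obtain ⟨U0, hU0, hlev⟩ := select (fun i => Mut rd (iC a c L i) (iP a c L i))
    (fun i => L * iC a c L i) s W (by
      intro i hi W' hW'
      apply hTr V rd L hrd hNB W' (iC a c L i) (iP a c L i) (le_refl _)
      apply big_card hW'
      refine le_trans (Nat.pow_le_pow_right (by norm_num) ?_) hW
      rw [← hsum]
      refine le_trans ?_ hM1
      have : L * iC a c L i ≤ L * iC a c L s :=
        Nat.mul_le_mul_left _ (iC_le_of_le a c L hi.le)
      omega)
  rw [← hsum] at hU0
  obtain ⟨Y, Z, hY, hZ, hsp⟩ := hcon U0 hU0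
  have hWne : W.Nonempty := card_pos.1 (lt_of_lt_of_le (by positivity) hW)
  have hU0ne := big_nonempty hU0 hWne
  have hYne := big_nonempty hY hU0ne
  have hZcard : 2 ^ τ ≤ Z.card := by
    apply big_card (big_trans hZ hU0)
    exact le_trans (Nat.pow_le_pow_right (by norm_num) hM2) hW
  apply hno
  obtain ⟨φ, hφ, hcopy⟩ := extract hS hT rd E τ hrd hE Z Y hZcard hYne
    (fun i => (inn a c L i).1) (fun i => a + (inn a c L i).1 + 1) (fun i => iP a c L i) (by
      intro i hi
      refine ⟨by rw [← hs, ← ha], le_of_eq rfl, ?_⟩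
      intro A' B' hA' hB'
      obtain ⟨Wi, hWi, hbad⟩ := hlev i (by omega)
      rw [← inn_sum] at hWi
      have hA'W : Big (iC a c L i) A' Wi := big_trans (big_trans hA' hZ) hWi
      have hB'W : Big (iC a c L i) B' Wi := big_trans (big_trans hB' hY) hWi
      have hsp1 : Sp rd (iP a c L i) A' B' B' := by
        unfold Sp
        set β := a + (inn a c L i).1 + 1 with hβ
        have h1 : iP a c L i + 3 * β ≤ 3 * iC a c L s := by
          have h2 : iC a c L (i + 1) ≤ iC a c L s := iC_le_of_le a c L (by omega)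
          have h0 : iC a c L (i + 1) = a + (2 * β + (3 * L * iC a c L i + 3 * L + 2)) + 1 + c +
            ((inn a c L i).2 + L * iC a c L i) := rfl
          have h3 : β ≤ iC a c L i := by
            unfold iC
            omega
          have h4 := iC_mono a c L i
          unfold iP
          omega
        have h2 : 2 ^ (3 * iC a c L s) * ec rd A' B' B' ≤
            2 ^ (3 * β) * (A'.card * B'.card * B'.card) := by
          calc 2 ^ (3 * iC a c L s) * ec rd A' B' B' ≤ 2 ^ (3 * iC a c L s) * ec rd Y Y Z :=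
                Nat.mul_le_mul_left _ (ec_rot rd hrd hA'.1 hB'.1)
            _ ≤ Y.card * Y.card * Z.card := hsp
            _ ≤ (2 ^ β * B'.card) * (2 ^ β * B'.card) * (2 ^ β * A'.card) :=
                Nat.mul_le_mul (Nat.mul_le_mul hB'.2 hB'.2) hA'.2
            _ = 2 ^ (3 * β) * (A'.card * B'.card * B'.card) := by
                rw [show 3 * β = β + β + β by ring, pow_add, pow_add]
                ring
        have h3 : 2 ^ (3 * β) * (2 ^ (iP a c L i) * ec rd A' B' B') ≤
            2 ^ (3 * β) * (A'.card * B'.card * B'.card) := by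
          refine le_trans ?_ h2
          rw [← mul_assoc, ← pow_add]
          exact Nat.mul_le_mul_right _ (Nat.pow_le_pow_right (by norm_num) (by omega))
        exact Nat.le_of_mul_le_mul_left h3 (by positivity)
      have hsp2 : ¬ Sp rd (iP a c L i) A' A' B' := fun h =>
        hbad ⟨A', B', hA'W, hB'W, h, hsp1⟩
      unfold Sp at hsp2
      rw [not_le] at hsp2
      rw [Fintype.card_bool]
      calc A'.card ^ 2 * B'.card = A'.card * A'.card * B'.card := by ring
        _ ≤ 2 ^ (iP a c L i) * ec rd A' A' B' := hsp2.le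
        _ ≤ 2 ^ (iP a c L i) * gc (Gd rd) A' B' := Nat.mul_le_mul_left _ (ec_le_gc rd A' B'))
  refine ⟨φ, ?_, hcopy⟩
  intro i
  rcases hφ i with h | h
  · exact hU0.1 (hZ.1 h)
  · exact hU0.1 (hY.1 h)

theorem outer (hTr : S_TREE) (hS : S_SUPER) (hT : S_STEP) {I : Type} [Fintype I]
    (rd : V → V → V → Prop) (E : I → I → I → Prop) (L τ : ℕ) (hrd : IsRed rd) (hL : 1 ≤ L)
    (hNB : NoBlue rd L) (hE : Thr rd E (2 ^ τ)) (a s : ℕ) (hs : s = Fintype.card I)
    (ha : a = s * (τ + 1)) (y : ℕ) (hy : y = oc a L s s) (S : Finset V)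
    (hS' : 2 ^ (7 * L * y + τ) ≤ S.card) :
    ∃ φ : Option (I × Bool) → V, (∀ i, φ i ∈ S) ∧ IsCopy rd (DE E) φ := by
  classical
  by_contra hno
  have hy1 : 1 ≤ y := by
    rw [hy]
    unfold oc
    omega
  have hLy : y ≤ L * y := Nat.le_mul_of_pos_left _ hL
  have hLy' : L ≤ L * y := Nat.le_mul_of_pos_right _ hy1
  have h7 : 7 * L * y = 7 * (L * y) := by ring
  have hsum : (out a L s s).2 = ∑ l ∈ range s, (inn a (oc a L s l) L s).2 := out_sum a L s s
  have hsum_le : (out a L s s).2 ≤ y := by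
    rw [hy]
    unfold oc
    omega
  obtain ⟨W0, hW0, hlev⟩ := select
    (fun j => One rd (oc a L s j) (3 * iC a (oc a L s j) L s))
    (fun j => (inn a (oc a L s j) L s).2) s S (by
      intro j hj W hW
      rw [← hsum] at hW
      have hx : 3 * iC a (oc a L s j) L s ≤ y := by
        rw [hy]
        exact (iC_le_oc a L s j).trans (oc_le_of_le a L s (by omega))
      have hcy : oc a L s j ≤ y := by
        rw [hy]
        exact oc_le_of_le a L s hj.le
      have hin : (inn a (oc a L s j) L s).2 ≤ iC a (oc a L s j) L s := by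
        unfold iC
        omega
      have hLx : L * iC a (oc a L s j) L s ≤ L * y := Nat.mul_le_mul_left _ (by omega)
      apply inner hTr hS hT rd E L τ hrd hNB hE a s hs ha (oc a L s j) (7 * L * y + τ - y) W
      · apply big_card (big_mono hsum_le hW)
        refine le_trans (Nat.pow_le_pow_right (by norm_num) ?_) hS'
        omega
      · omega
      · omega
      · rintro ⟨φ, h1, h2⟩
        exact hno ⟨φ, fun i => hW.1 (h1 i), h2⟩)
  rw [← hsum] at hW0
  have hSne : S.Nonempty := card_pos.1 (lt_of_lt_of_le (by positivity) hS')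
  have hW0ne := big_nonempty hW0 hSne
  have hWcard : 2 ^ τ ≤ W0.card := by
    apply big_card (big_mono hsum_le hW0)
    refine le_trans (Nat.pow_le_pow_right (by norm_num) ?_) hS'
    omega
  apply hno
  obtain ⟨φ, hφ, hcopy⟩ := extract hS hT rd E τ hrd hE W0 W0 hWcard hW0ne
    (fun j => (out a L s j).1) (fun j => a + (out a L s j).1 + 1)
    (fun j => 3 * iC a (oc a L s j) L s) (by
      intro j hj
      refine ⟨by rw [← hs, ← ha], le_of_eq rfl, ?_⟩
      intro Y Z hY hZ
      obtain ⟨Wj, hWj, hbad⟩ := hlev j (by omega)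
      rw [← out_sum] at hWj
      have hY' : Big (oc a L s j) Y Wj := big_trans hY hWj
      have hZ' : Big (oc a L s j) Z Wj := big_trans hZ hWj
      have hsp : ¬ Sp rd (3 * iC a (oc a L s j) L s) Y Y Z := fun h => hbad ⟨Y, Z, hY', hZ', h⟩
      unfold Sp at hsp
      rw [not_le] at hsp
      rw [Fintype.card_bool]
      calc Y.card ^ 2 * Z.card = Y.card * Y.card * Z.card := by ring
        _ ≤ 2 ^ (3 * iC a (oc a L s j) L s) * ec rd Y Y Z := hsp.le
        _ ≤ 2 ^ (3 * iC a (oc a L s j) L s) * gc (Gd rd) Y Z :=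
            Nat.mul_le_mul_left _ (ec_le_gc rd Y Z))
  refine ⟨φ, ?_, hcopy⟩
  intro i
  rcases hφ i with h | h
  · exact hW0.1 h
  · exact hW0.1 h

end Dbl

open Dbl in
theorem DBL_thm (hTr : S_TREE) (hS : S_SUPER) (hT : S_STEP) : S_DBL := by
  intro s
  set K₀ := 7 * (11 ^ s * 12 ^ (s * s) * (s + 1)) + 1 with hK₀
  refine ⟨K₀ + (s * s + 1), ?_⟩
  intro V I _ rd E L τ hrd hL hNB hI hE S hScard
  set a := s * (τ + 1) with ha
  set y := oc a L s s with hy
  apply outer hTr hS hT rd E L τ hrd hL hNB hE a s hI.symm ha y hy S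
  refine le_trans (Nat.pow_le_pow_right (by norm_num) ?_) hScard
  have h1 : y ≤ (11 * (12 * L) ^ s) ^ s * (a + 1) := oc_bound a L s hL s
  have h2 : a + 1 ≤ (s + 1) * (τ + 1) := by
    rw [ha]
    nlinarith
  have h3 : (11 * (12 * L) ^ s) ^ s = 11 ^ s * 12 ^ (s * s) * L ^ (s * s) := by
    rw [mul_pow, mul_pow, mul_pow, ← pow_mul, ← pow_mul, mul_assoc]
  have h4 : 7 * L * y ≤ 7 * (11 ^ s * 12 ^ (s * s) * (s + 1)) * (L ^ (s * s + 1) * (τ + 1)) := by
    calc 7 * L * y ≤ 7 * L * ((11 * (12 * L) ^ s) ^ s * ((s + 1) * (τ + 1))) :=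
          Nat.mul_le_mul_left _ (h1.trans (Nat.mul_le_mul_left _ h2))
      _ = 7 * (11 ^ s * 12 ^ (s * s) * (s + 1)) * (L ^ (s * s + 1) * (τ + 1)) := by
          rw [h3, pow_succ L (s * s)]
          ring
  have h5 : τ ≤ L ^ (s * s + 1) * (τ + 1) :=
    le_trans (Nat.le_succ τ) (Nat.le_mul_of_pos_left _ (by positivity))
  have h6 : 7 * L * y + τ ≤ K₀ * (L ^ (s * s + 1) * (τ + 1)) := by
    rw [hK₀, add_mul, one_mul]
    exact Nat.add_le_add h4 h5
  calc 7 * L * y + τ ≤ K₀ * (L ^ (s * s + 1) * (τ + 1)) := h6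
    _ ≤ (K₀ + (s * s + 1)) * (L ^ (K₀ + (s * s + 1)) * (τ + 1)) :=
        Nat.mul_le_mul (Nat.le_add_right _ _) (Nat.mul_le_mul_right _
          (Nat.pow_le_pow_right hL (Nat.le_add_left _ _)))
    _ = (K₀ + (s * s + 1)) * L ^ (K₀ + (s * s + 1)) * (τ + 1) := by ring

end Pool.Agent.DXR
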