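import Mathlib

/-!
Ramsey numbers of 3-graphs versus cliques: red relations, robust and sparse triples of sets,
the lexicographic product and the doubling operation `DE`.
-/

namespace Pool.Agent.DXR

open Finset

/-- `rd` is a symmetric ternary relation on triples of distinct points (the red triples). -/
structure IsRed {V : Type} (rd : V → V → V → Prop) : Prop where
  swap12 : ∀ x y z, rd x y z → rd y x z
  swap23 : ∀ x y z, rd x y z → rd x z y
  ne12 : ∀ x y z, rd x y z → x ≠ y

/-- `A` is a subset of `B` of relative size at least `2 ^ (-c)`. -/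
def Big {V : Type} (c : ℕ) (A B : Finset V) : Prop := A ⊆ B ∧ B.card ≤ 2 ^ c * A.card

open Classical in
/-- The number of red triples in `A × B × C`. -/
noncomputable def ec {V : Type} (rd : V → V → V → Prop) (A B C : Finset V) : ℕ :=
  ((A ×ˢ B ×ˢ C).filter (fun q => rd q.1 q.2.1 q.2.2)).card

/-- The triple `A, B, C` is `p`-sparse. -/
def Sp {V : Type} (rd : V → V → V → Prop) (p : ℕ) (A B C : Finset V) : Prop :=
  2 ^ p * ec rd A B C ≤ A.card * B.card * C.card

/-- `U` contains a mutually sparse pair. -/
def Mut {V : Type} (rd : V → V → V → Prop) (c p : ℕ) (U : Finset V) : Prop :=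
  ∃ X Y : Finset V, Big c X U ∧ Big c Y U ∧ Sp rd p X X Y ∧ Sp rd p X Y Y

/-- `U` contains a pair which is sparse in one direction. -/
def One {V : Type} (rd : V → V → V → Prop) (c p : ℕ) (U : Finset V) : Prop :=
  ∃ Y Z : Finset V, Big c Y U ∧ Big c Z U ∧ Sp rd p Y Y Z

/-- Every set of `2 ^ L` points contains a red triple. -/
def NoBlue {V : Type} (rd : V → V → V → Prop) (L : ℕ) : Prop :=
  ∀ S : Finset V, S.card = 2 ^ L → ∃ x ∈ S, ∃ y ∈ S, ∃ z ∈ S, rd x y z

/-- A red copy of the 3-graph `E`. -/
def IsCopy {V I : Type} (rd : V → V → V → Prop) (E : I → I → I → Prop) (φ : I → V) : Prop :=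
  Function.Injective φ ∧ ∀ x y z, E x y z → rd (φ x) (φ y) (φ z)

/-- Every set of at least `R` points contains a red copy of `E`. -/
def Thr {V I : Type} (rd : V → V → V → Prop) (E : I → I → I → Prop) (R : ℕ) : Prop :=
  ∀ S : Finset V, R ≤ S.card → ∃ φ : I → V, (∀ i, φ i ∈ S) ∧ IsCopy rd E φ

open Classical in
/-- The number of `φ : I → A` with property `P`. -/
noncomputable def cnt {V I : Type} [Fintype I] (A : Finset V) (P : (I → V) → Prop) : ℕ :=
  ((Fintype.piFinset (fun _ : I => A)).filter P).card

open Classical in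
/-- The number of `(κ, t)`, `κ : J → Y`, `t ∈ Z`, with property `Good`. -/
noncomputable def gc {V W J : Type} [Fintype J] (Good : (J → V) → W → Prop) (Y : Finset V)
    (Z : Finset W) : ℕ :=
  (((Fintype.piFinset (fun _ : J => Y)) ×ˢ Z).filter (fun q => Good q.1 q.2)).card

/-- `Good` is robust on `A, B`. -/
def Rob {V W J : Type} [Fintype J] (Good : (J → V) → W → Prop) (β p : ℕ) (A : Finset V)
    (B : Finset W) : Prop :=
  ∀ (Y : Finset V) (Z : Finset W), Big β Y A → Big β Z B →
    Y.card ^ Fintype.card J * Z.card ≤ 2 ^ p * gc Good Y Z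

open Classical in
/-- The number of `(ω, t)`, `ω : I → J → A`, `t ∈ B`, such that all mixtures of `ω` have property
`P` and `Good (ω i) t` for all `i`. -/
noncomputable def cntr {V W I J : Type} [Fintype I] [Fintype J] (P : (I → V) → Prop)
    (Good : (J → V) → W → Prop) (A : Finset V) (B : Finset W) : ℕ :=
  (((Fintype.piFinset (fun _ : I => Fintype.piFinset (fun _ : J => A))) ×ˢ B).filter
    (fun q => (∀ c : I → J, P (fun i => q.1 i (c i))) ∧ ∀ i, Good (q.1 i) q.2)).card

/-- The doubling of `E`: two copies `(v, false)`, `(v, true)` of every vertex, all mixtures of the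
edges of `E`, and a new vertex `none` forming an edge with the two copies of every vertex. -/
def DE {I : Type} (E : I → I → I → Prop) :
    Option (I × Bool) → Option (I × Bool) → Option (I × Bool) → Prop
  | some a, some b, some c => E a.1 b.1 c.1
  | none, some b, some c => b.1 = c.1 ∧ b.2 ≠ c.2
  | some a, none, some c => a.1 = c.1 ∧ a.2 ≠ c.2
  | some a, some b, none => a.1 = b.1 ∧ a.2 ≠ b.2
  | _, _, _ => False

/-- The lexicographic product: every vertex of `E` is replaced by a copy of `G`. -/
def LE {I J : Type} (E : I → I → I → Prop) (G : J → J → J → Prop) :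
    I × J → I × J → I × J → Prop :=
  fun a b c => E a.1 b.1 c.1 ∨ (a.1 = b.1 ∧ b.1 = c.1 ∧ G a.2 b.2 c.2)

end Pool.Agent.DXR
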