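import Pool.Agent.DXR.Stmts
import Pool.Agent.DXR.Class

/-!
From colourings of triples to red relations and back.
-/

namespace Pool.Agent.DXR

open Finset

namespace Fin1

open Classical in
/-- the ternary relation of a 3-graph -/
def FE {α : Type} (F : Finset (Finset α)) : α → α → α → Prop :=
  fun x y z => x ≠ y ∧ x ≠ z ∧ y ≠ z ∧ ({x, y, z} : Finset α) ∈ F

theorem map_triple {α β : Type} [DecidableEq α] [DecidableEq β] (φ : α ↪ β) (x y z : α) :
    ({x, y, z} : Finset α).map φ = {φ x, φ y, φ z} := by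
  rw [map_insert, map_insert, map_singleton]

theorem isRed_of {V : Type} [DecidableEq V] (red : Finset V → Prop) :
    IsRed (fun x y z : V => x ≠ y ∧ x ≠ z ∧ y ≠ z ∧ red {x, y, z}) := by
  refine ⟨?_, ?_, ?_⟩
  · rintro x y z ⟨h1, h2, h3, h4⟩
    refine ⟨h1.symm, h3, h2, ?_⟩
    rwa [insert_comm]
  · rintro x y z ⟨h1, h2, h3, h4⟩
    refine ⟨h2, h1, h3.symm, ?_⟩
    rwa [pair_comm z y]
  · rintro x y z ⟨h1, _⟩
    exact h1

/-- the red relation of a colouring -/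
def Rdd {N : ℕ} (red : Finset (Fin N) → Prop) : Fin N → Fin N → Fin N → Prop :=
  fun x y z => x ≠ y ∧ x ≠ z ∧ y ≠ z ∧ red {x, y, z}

theorem noBlue_of {N n L : ℕ} (red : Finset (Fin N) → Prop) (hL : n ≤ 2 ^ L)
    (h : ¬ ∃ S : Finset (Fin N), S.card = n ∧ ∀ e ⊆ S, e.card = 3 → ¬ red e) :
    NoBlue (Rdd red) L := by
  intro S hS
  obtain ⟨T, hTS, hT⟩ := exists_subset_card_eq (s := S) (n := n) (by omega)
  by_contra hcon
  apply h
  refine ⟨T, hT, ?_⟩
  intro e he hec hr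
  obtain ⟨x, y, z, hxy, hxz, hyz, rfl⟩ := card_eq_three.1 hec
  exact hcon ⟨x, hTS (he (by simp)), y, hTS (he (by simp)), z, hTS (he (by simp)),
    hxy, hxz, hyz, hr⟩

theorem thr_of_arrows {α : Type} (F : Finset (Finset α)) {N n M : ℕ}
    (hA : Arrows F n M) (red : Finset (Fin N) → Prop)
    (h : ¬ ∃ S : Finset (Fin N), S.card = n ∧ ∀ e ⊆ S, e.card = 3 → ¬ red e) :
    Thr (Rdd red) (FE F) M := by
  classical
  intro S hS
  obtain ⟨T, hTS, hT⟩ := exists_subset_card_eq hS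
  set ι : Fin M ↪ Fin N := (T.orderEmbOfFin hT).toEmbedding with hι
  have hιT : ∀ i, ι i ∈ T := fun i => T.orderEmbOfFin_mem hT i
  rcases hA (fun e => red (e.map ι)) with ⟨φ, hφ⟩ | ⟨B, hB1, hB2⟩
  · refine ⟨fun i => ι (φ i), fun i => hTS (hιT _), ?_, ?_⟩
    · exact ι.injective.comp φ.injective
    · rintro x y z ⟨h1, h2, h3, h4⟩
      refine ⟨?_, ?_, ?_, ?_⟩
      · exact fun h => h1 (φ.injective (ι.injective h))
      · exact fun h => h2 (φ.injective (ι.injective h))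
      · exact fun h => h3 (φ.injective (ι.injective h))
      · have h5 := hφ _ h4
        simp only [map_insert, map_singleton] at h5
        exact h5
  · exfalso
    apply h
    refine ⟨B.map ι, by rw [card_map, hB1], ?_⟩
    intro e he hec
    obtain ⟨f, hf, rfl⟩ := subset_map_iff.1 he
    rw [card_map] at hec
    exact hB2 f hf hec

theorem arrows_of_thr {α : Type} (F : Finset (Finset α)) (E : α → α → α → Prop) {n N L : ℕ}
    (hL : n ≤ 2 ^ L)
    (hFE : ∀ e ∈ F, ∃ x y z, x ≠ y ∧ x ≠ z ∧ y ≠ z ∧ (∀ w, w ∈ e ↔ w = x ∨ w = y ∨ w = z) ∧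
      E x y z)
    (H : ∀ red : Finset (Fin N) → Prop,
      (¬ ∃ S : Finset (Fin N), S.card = n ∧ ∀ e ⊆ S, e.card = 3 → ¬ red e) →
      IsRed (Rdd red) → NoBlue (Rdd red) L → Thr (Rdd red) E N) :
    Arrows F n N := by
  classical
  intro red
  by_cases hb : ∃ S : Finset (Fin N), S.card = n ∧ ∀ e ⊆ S, e.card = 3 → ¬ red e
  · exact Or.inr hb
  left
  have h1 := H red hb (isRed_of red) (noBlue_of red hL hb)
  obtain ⟨φ, -, h2, h3⟩ := h1 univ (by rw [card_univ, Fintype.card_fin])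
  refine ⟨⟨φ, h2⟩, ?_⟩
  intro e he
  obtain ⟨x, y, z, hxy, hxz, hyz, hmem, hE⟩ := hFE e he
  have h4 : e = {x, y, z} := by
    ext w
    rw [hmem w]
    simp
  have h5 := (h3 x y z hE).2.2.2
  rw [h4, map_insert, map_insert, map_singleton]
  exact h5

theorem fe_of_card {α : Type} (F : Finset (Finset α)) (hF : ∀ e ∈ F, e.card = 3) :
    ∀ e ∈ F, ∃ x y z, x ≠ y ∧ x ≠ z ∧ y ≠ z ∧ (∀ w, w ∈ e ↔ w = x ∨ w = y ∨ w = z) ∧
      FE F x y z := by
  classical
  intro e he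
  obtain ⟨x, y, z, hxy, hxz, hyz, rfl⟩ := card_eq_three.1 (hF e he)
  refine ⟨x, y, z, hxy, hxz, hyz, fun w => by simp, hxy, hxz, hyz, ?_⟩
  have : ({x, y, z} : Finset α) ∈ F := he
  exact this

theorem thr_mono {V I : Type} {rd : V → V → V → Prop} {E : I → I → I → Prop} {R R' : ℕ}
    (h : R ≤ R') (hT : Thr rd E R) : Thr rd E R' := fun S hS => hT S (h.trans hS)

theorem clog_le (n : ℕ) (hn : 2 ≤ n) : Nat.clog 2 n ≤ 2 * Nat.log 2 n := by
  have h1 : 1 ≤ Nat.log 2 n := Nat.log_pos (by norm_num) hn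
  have h2 : Nat.clog 2 n ≤ Nat.log 2 n + 1 := by
    apply Nat.clog_le_of_le_pow
    exact (Nat.lt_pow_succ_log_self (by norm_num) n).le
  omega

theorem clog_pos (n : ℕ) (hn : 2 ≤ n) : 1 ≤ Nat.clog 2 n := Nat.clog_pos (by norm_num) hn

theorem le_pow_clog' (n : ℕ) : n ≤ 2 ^ Nat.clog 2 n := Nat.le_pow_clog (by norm_num) n

end Fin1

end Pool.Agent.DXR
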