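import Pool.Agent.DXR.Fin1

/-!
Final form of the theorem on labelled 3-graphs.
-/

namespace Pool.Agent.DXR

open Finset

namespace Fin2

open Fin1

theorem fe_mem {α : Type} [DecidableEq α] (F : Finset (Finset α)) {x y z : α}
    (h : FE F x y z) : ({x, y, z} : Finset α) ∈ F := by
  obtain ⟨s, hs, hs'⟩ : ∃ s ∈ F, ∀ w, w ∈ s ↔ w = x ∨ w = y ∨ w = z :=
    ⟨_, h.2.2.2, fun w => by simp⟩
  have h1 : s = {x, y, z} := by
    ext w
    rw [hs' w]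
    simp
  rw [← h1]
  exact hs

theorem pow_step {K₀ L l x y : ℕ} (hl : 1 ≤ l) (hL : L ≤ 2 * l) (h : x ≤ 3 * y) :
    K₀ * L ^ K₀ * x ≤ (3 * K₀ * 2 ^ K₀ + K₀) * l ^ (3 * K₀ * 2 ^ K₀ + K₀) * y := by
  calc K₀ * L ^ K₀ * x ≤ K₀ * (2 * l) ^ K₀ * (3 * y) :=
        Nat.mul_le_mul (Nat.mul_le_mul_left _ (Nat.pow_le_pow_left hL _)) h
    _ = 3 * K₀ * 2 ^ K₀ * l ^ K₀ * y := by rw [mul_pow]; ring
    _ ≤ (3 * K₀ * 2 ^ K₀ + K₀) * l ^ (3 * K₀ * 2 ^ K₀ + K₀) * y :=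
        Nat.mul_le_mul_right _ (Nat.mul_le_mul (Nat.le_add_right _ _)
          (Nat.pow_le_pow_right hl (Nat.le_add_left _ _)))

theorem label_final (hP : S_PG) (k d : ℕ) (F : Finset (Finset (Fin k)))
    (hF : ∀ e ∈ F, e.card = 3) (a : Fin k → Fin d → ZMod 2) (ha : ∀ x, a x ≠ 0)
    (haF : ∀ e ∈ F, ∑ x ∈ e, a x = 0) :
    ∃ K : ℕ, ∀ n ≥ 2, ∃ N ≤ 2 ^ (K * Nat.log 2 n ^ K), Arrows F n N := by
  obtain ⟨K₀, hK₀⟩ := hP k d (FE F) a ha (by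
    intro x y z hxyz
    have h5 := haF _ (fe_mem F hxyz)
    obtain ⟨h1, h2, h3, -⟩ := hxyz
    rw [sum_insert (by simp [h1, h2]), sum_insert (by simp [h3]), sum_singleton] at h5
    rw [add_assoc]
    exact h5)
  refine ⟨3 * K₀ * 2 ^ K₀ + K₀, ?_⟩
  intro n hn
  set L := Nat.clog 2 n with hL
  refine ⟨2 ^ (K₀ * L ^ K₀), ?_, ?_⟩
  · apply Nat.pow_le_pow_right (by norm_num)
    have h2 := pow_step (K₀ := K₀) (x := 1) (y := 1) (Nat.log_pos (by norm_num) hn)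
      (clog_le n hn) (by norm_num)
    simpa using h2
  · apply arrows_of_thr F (FE F) (le_pow_clog' n) (fe_of_card F hF)
    intro red hb hrd hNB
    exact hK₀ (Fin _) (Rdd red) L hrd (clog_pos n hn) hNB

end Fin2

end Pool.Agent.DXR
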