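import Pool.Agent.DXR.Fin1
import Pool.Agent.Lib_helper54.LinUp.Main

/-!
Exponent `(s + 1) / 3` for linear 3-graphs on `s` vertices.
-/

namespace Pool.Agent.DXR

open Finset

namespace Fin3

open Fin1

/-- the single edge on `Fin 3` -/
def Tri : Fin 3 → Fin 3 → Fin 3 → Prop := fun i j k => i ≠ j ∧ i ≠ k ∧ j ≠ k

theorem thr_tri {N n : ℕ} (red : Finset (Fin N) → Prop)
    (h : ¬ ∃ S : Finset (Fin N), S.card = n ∧ ∀ e ⊆ S, e.card = 3 → ¬ red e) :
    Thr (Rdd red) Tri n := by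
  classical
  intro S hS
  obtain ⟨T, hTS, hT⟩ := exists_subset_card_eq hS
  have h1 : ∃ e ⊆ T, e.card = 3 ∧ red e := by
    by_contra hcon
    apply h
    refine ⟨T, hT, ?_⟩
    intro e he hec hr
    exact hcon ⟨e, he, hec, hr⟩
  obtain ⟨e, heT, hec, hr⟩ := h1
  set φ : Fin 3 → Fin N := fun i => e.orderEmbOfFin hec i with hφ
  have hinj : Function.Injective φ := (e.orderEmbOfFin hec).injective
  refine ⟨φ, fun i => hTS (heT (e.orderEmbOfFin_mem hec i)), hinj, ?_⟩
  rintro i j k ⟨h1, h2, h3⟩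
  refine ⟨fun h => h1 (hinj h), fun h => h2 (hinj h), fun h => h3 (hinj h), ?_⟩
  have h4 : ({φ i, φ j, φ k} : Finset (Fin N)) = e := by
    apply eq_of_subset_of_card_le
    · intro w hw
      simp only [mem_insert, mem_singleton] at hw
      rcases hw with rfl | rfl | rfl
      · exact e.orderEmbOfFin_mem hec _
      · exact e.orderEmbOfFin_mem hec _
      · exact e.orderEmbOfFin_mem hec _
    · rw [hec, card_eq_three.2 ⟨φ i, φ j, φ k, fun h => h1 (hinj h), fun h => h2 (hinj h),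
        fun h => h3 (hinj h), rfl⟩]
  rw [h4]
  exact hr

theorem thr_emb {V I J : Type} {rd : V → V → V → Prop} {E : I → I → I → Prop}
    {E' : J → J → J → Prop} {R : ℕ} (ψ : I → J) (hψ : Function.Injective ψ)
    (hE : ∀ x y z, E x y z → E' (ψ x) (ψ y) (ψ z)) (hT : Thr rd E' R) : Thr rd E R := by
  intro S hS
  obtain ⟨φ, h1, h2, h3⟩ := hT S hS
  exact ⟨fun i => φ (ψ i), fun i => h1 _, h2.comp hψ, fun x y z h => h3 _ _ _ (hE x y z h)⟩

theorem third_final (hSub : S_SUB) (hQ : S_QUOT) (s : ℕ) (hs : 2 ≤ s)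
    (F : Finset (Finset (Fin s))) (hF : ∀ e ∈ F, e.card = 3)
    (hlin : ∀ e ∈ F, ∀ f ∈ F, e ≠ f → (e ∩ f).card ≤ 1) :
    ∃ C : ℕ, ∀ n : ℕ, 1 ≤ n → ∃ N ≤ 2 ^ (C * n ^ ((s + 1) / 3)), Arrows F n N := by
  classical
  obtain ⟨F₁, A, q, π, hF₁, hA, hcard, hinj, hemb⟩ := hQ s F hs hF hlin
  obtain ⟨C, hC⟩ := LinUp54.upper_general s F₁ hF₁ A 0 (by
    intro v _
    rw [Nat.le_zero, card_eq_zero, filter_eq_empty_iff]
    rintro e he ⟨-, hd⟩
    exact hA e he hd)
  obtain ⟨K, hK⟩ := hSub s 3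
  have he1 : A.card + 1 ≤ (s + 1) / 3 := by omega
  refine ⟨K * (C + 2), ?_⟩
  intro n hn
  obtain ⟨N₁, hN₁, hArr⟩ := hC n hn
  have hArr' : Arrows F₁ n N₁ := hArr
  have hpow : A.card + (2 * 0 + 1) ^ 2 = A.card + 1 := by norm_num
  rw [hpow] at hN₁
  set m := n ^ (A.card + 1) with hm
  have hm1 : 1 ≤ m := Nat.one_le_pow _ _ hn
  have hnm : n ≤ m := Nat.le_self_pow (by omega) n
  set τ := (C + 1) * m with hτ
  have hN₁τ : N₁ ≤ 2 ^ τ := hN₁.trans (Nat.pow_le_pow_right (by norm_num)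
    (Nat.mul_le_mul_right _ (Nat.le_succ C)))
  have hnτ : n ≤ 2 ^ τ := by
    have h1 : m ≤ τ := Nat.le_mul_of_pos_left _ (Nat.succ_pos C)
    exact (hnm.trans h1).trans (Nat.lt_two_pow_self).le
  refine ⟨2 ^ (K * (τ + 1)), ?_, ?_⟩
  · apply Nat.pow_le_pow_right (by norm_num)
    have h1 : τ + 1 ≤ (C + 2) * m := by
      rw [hτ]
      nlinarith
    calc K * (τ + 1) ≤ K * ((C + 2) * m) := Nat.mul_le_mul_left _ h1
      _ ≤ K * ((C + 2) * n ^ ((s + 1) / 3)) :=
          Nat.mul_le_mul_left _ (Nat.mul_le_mul_left _ (Nat.pow_le_pow_right hn he1))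
      _ = K * (C + 2) * n ^ ((s + 1) / 3) := by ring
  · apply arrows_of_thr F (FE F) (le_pow_clog' n) (fe_of_card F hF)
    intro red hb hrd _
    have h1 := hK (Fin (2 ^ (K * (τ + 1)))) (Fin s) (Fin 3) (Rdd red) (FE F₁) Tri τ hrd
      (Fintype.card_fin s) (Fintype.card_fin 3)
      (thr_mono hN₁τ (thr_of_arrows F₁ hArr' red hb)) (thr_mono hnτ (thr_tri red hb))
    refine thr_emb (fun x => (q x, π x)) hinj ?_ h1
    rintro x y z ⟨hxy, hxz, hyz, hmem⟩
    obtain ⟨e, he, he'⟩ : ∃ e ∈ F, ∀ w, w ∈ e ↔ w = x ∨ w = y ∨ w = z :=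
      ⟨_, hmem, fun w => by simp⟩
    have hx : x ∈ e := (he' x).2 (Or.inl rfl)
    have hy : y ∈ e := (he' y).2 (Or.inr (Or.inl rfl))
    have hz : z ∈ e := (he' z).2 (Or.inr (Or.inr rfl))
    rcases hemb e he with h2 | ⟨h2, h3⟩
    · left
      have h4 : e.image q = {q x, q y, q z} := by
        ext w
        simp only [mem_image, mem_insert, mem_singleton]
        constructor
        · rintro ⟨u, hu, rfl⟩
          rcases (he' u).1 hu with rfl | rfl | rfl
          · exact Or.inl rfl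
          · exact Or.inr (Or.inl rfl)
          · exact Or.inr (Or.inr rfl)
        · rintro (rfl | rfl | rfl)
          · exact ⟨x, hx, rfl⟩
          · exact ⟨y, hy, rfl⟩
          · exact ⟨z, hz, rfl⟩
      have h5 : (e.image q).card = e.card := by
        rw [hF₁ _ h2, hF e he]
      have h6 : Set.InjOn q e := card_image_iff.1 h5
      refine ⟨fun h => hxy (h6 hx hy h), fun h => hxz (h6 hx hz h),
        fun h => hyz (h6 hy hz h), ?_⟩
      have h7 : ({q x, q y, q z} : Finset (Fin s)) ∈ F₁ := by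
        rw [← h4]
        exact h2
      obtain ⟨g, hg, hg'⟩ : ∃ g ∈ F₁, ∀ w, w ∈ g ↔ w = q x ∨ w = q y ∨ w = q z :=
        ⟨_, h7, fun w => by simp⟩
      have h8 : g = @insert _ _ (@Finset.instInsert (Fin s) (fun a b => Classical.propDecidable
          (a = b))) (q x) (@insert _ _ (@Finset.instInsert (Fin s) (fun a b =>
          Classical.propDecidable (a = b))) (q y) {q z}) := by
        ext w
        rw [hg' w]
        simp
      rw [← h8]
      exact hg
    · right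
      exact ⟨h2 x hx y hy, h2 y hy z hz, fun h => hxy (h3 hx hy h), fun h => hxz (h3 hx hz h),
        fun h => hyz (h3 hy hz h)⟩

end Fin3

end Pool.Agent.DXR
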