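import Pool.Agent.DXR.Fin2

/-!
The class of 3-graphs generated by labelled 3-graphs, lexicographic products and doublings.
-/

namespace Pool.Agent.DXR

open Finset

namespace Fin4

open Fin1 DXR.Fin2

/-- A quasipolynomial bound relative to `E₀`, uniformly in the colouring. -/
def QP {I₀ I : Type} (E₀ : I₀ → I₀ → I₀ → Prop) (E : I → I → I → Prop) : Prop :=
  ∃ K : ℕ, ∀ (V : Type) (rd : V → V → V → Prop) (L τ : ℕ), IsRed rd → 1 ≤ L → NoBlue rd L →
    Thr rd E₀ (2 ^ τ) → Thr rd E (2 ^ (K * L ^ K * (τ + 1)))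

theorem bound_mono {K K' L : ℕ} (hL : 1 ≤ L) (h : K ≤ K') : K * L ^ K ≤ K' * L ^ K' :=
  Nat.mul_le_mul h (Nat.pow_le_pow_right hL h)

theorem bound_comp {K K' L : ℕ} (τ : ℕ) (hL : 1 ≤ L) :
    K * L ^ K * (K' * L ^ K' * (τ + 1) + 1) ≤
      (K * (K' + 1) + K + K') * L ^ (K * (K' + 1) + K + K') * (τ + 1) := by
  have h1 : 1 ≤ L ^ K' * (τ + 1) := Nat.succ_le_of_lt (by positivity)
  calc K * L ^ K * (K' * L ^ K' * (τ + 1) + 1) ≤
        K * L ^ K * (K' * L ^ K' * (τ + 1) + L ^ K' * (τ + 1)) :=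
        Nat.mul_le_mul_left _ (Nat.add_le_add_left h1 _)
    _ = K * (K' + 1) * L ^ (K + K') * (τ + 1) := by rw [pow_add]; ring
    _ ≤ (K * (K' + 1) + K + K') * L ^ (K * (K' + 1) + K + K') * (τ + 1) :=
        Nat.mul_le_mul_right _ (Nat.mul_le_mul (by omega) (Nat.pow_le_pow_right hL (by omega)))

theorem qp_emb {I₀ I J : Type} {E₀ : I₀ → I₀ → I₀ → Prop} {E : I → I → I → Prop}
    {E' : J → J → J → Prop} (ψ : I → J) (hψ : Function.Injective ψ)
    (hE : ∀ x y z, E x y z → E' (ψ x) (ψ y) (ψ z)) (h : QP E₀ E') : QP E₀ E := by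
  obtain ⟨K, hK⟩ := h
  refine ⟨K, ?_⟩
  intro V rd L τ hrd hL hNB h0 S hS
  obtain ⟨φ, h1, h2, h3⟩ := hK V rd L τ hrd hL hNB h0 S hS
  exact ⟨fun i => φ (ψ i), fun i => h1 _, h2.comp hψ, fun x y z h => h3 _ _ _ (hE x y z h)⟩

theorem qp_dbl (hD : S_DBL) {I₀ I : Type} [Fintype I] {E₀ : I₀ → I₀ → I₀ → Prop}
    {E : I → I → I → Prop} (h : QP E₀ E) : QP E₀ (DE E) := by
  obtain ⟨K', hK'⟩ := h
  obtain ⟨K, hK⟩ := hD (Fintype.card I)
  refine ⟨K * (K' + 1) + K + K', ?_⟩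
  intro V rd L τ hrd hL hNB h0
  apply thr_mono (Nat.pow_le_pow_right (by norm_num) (bound_comp τ hL))
  exact hK V I rd E L (K' * L ^ K' * (τ + 1)) hrd hL hNB rfl (hK' V rd L τ hrd hL hNB h0)

theorem qp_lex (hS : S_SUB) {I₀ I J : Type} [Fintype I] [Fintype J]
    {E₀ : I₀ → I₀ → I₀ → Prop} {E : I → I → I → Prop}
    {G : J → J → J → Prop} (h1 : QP E₀ E) (h2 : QP E₀ G) : QP E₀ (LE E G) := by
  obtain ⟨K₁, hK₁⟩ := h1
  obtain ⟨K₂, hK₂⟩ := h2
  obtain ⟨K, hK⟩ := hS (Fintype.card I) (Fintype.card J)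
  set M := max K₁ K₂ with hM
  refine ⟨K * (M + 1) + K + M, ?_⟩
  intro V rd L τ hrd hL hNB h0
  have h3 : K * (M * L ^ M * (τ + 1) + 1) ≤
      (K * (M + 1) + K + M) * L ^ (K * (M + 1) + K + M) * (τ + 1) := by
    refine le_trans ?_ (bound_comp (K := K) (K' := M) τ hL)
    exact Nat.mul_le_mul_right _ (Nat.le_mul_of_pos_right _ (by positivity))
  apply thr_mono (Nat.pow_le_pow_right (by norm_num) h3)
  apply hK V I J rd E G _ hrd rfl rfl
  · exact thr_mono (Nat.pow_le_pow_right (by norm_num)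
      (Nat.mul_le_mul_right _ (bound_mono hL (le_max_left _ _)))) (hK₁ V rd L τ hrd hL hNB h0)
  · exact thr_mono (Nat.pow_le_pow_right (by norm_num)
      (Nat.mul_le_mul_right _ (bound_mono hL (le_max_right _ _)))) (hK₂ V rd L τ hrd hL hNB h0)

theorem fe_iff {α : Type} (F : Finset (Finset α)) {x y z : α} :
    FE F x y z ↔ x ≠ y ∧ x ≠ z ∧ y ≠ z ∧ ∃ e ∈ F, ∀ w, w ∈ e ↔ w = x ∨ w = y ∨ w = z := by
  classical
  constructor
  · rintro ⟨h1, h2, h3, h4⟩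
    exact ⟨h1, h2, h3, _, h4, fun w => by simp⟩
  · rintro ⟨h1, h2, h3, e, he, he'⟩
    refine ⟨h1, h2, h3, ?_⟩
    have h5 : e = {x, y, z} := by
      ext w
      rw [he' w]
      simp
    have h6 : ({x, y, z} : Finset α) ∈ F := by
      rw [← h5]
      exact he
    exact h6

/-- embedding of relations from an embedding of 3-graphs into `F'`, whose edges come from `E'` -/
theorem emb_rel {α β : Type} (H : Finset (Finset α)) (F' : Set (Finset β))
    (E' : β → β → β → Prop)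
    (hsym : ∀ e ∈ F', ∀ x y z, x ≠ y → x ≠ z → y ≠ z → (∀ w, w ∈ e ↔ w = x ∨ w = y ∨ w = z) →
      E' x y z) (f : α ↪ β) (hH : ∀ e ∈ H, e.map f ∈ F') :
    ∀ x y z, FE H x y z → E' (f x) (f y) (f z) := by
  intro x y z hxyz
  obtain ⟨h1, h2, h3, e, he, he'⟩ := (fe_iff H).1 hxyz
  apply hsym _ (hH e he) (f x) (f y) (f z) (fun h => h1 (f.injective h))
    (fun h => h2 (f.injective h)) (fun h => h3 (f.injective h))
  intro w
  rw [mem_map]
  constructor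
  · rintro ⟨u, hu, rfl⟩
    rcases (he' u).1 hu with rfl | rfl | rfl
    · exact Or.inl rfl
    · exact Or.inr (Or.inl rfl)
    · exact Or.inr (Or.inr rfl)
  · rintro (rfl | rfl | rfl)
    · exact ⟨x, (he' x).2 (Or.inl rfl), rfl⟩
    · exact ⟨y, (he' y).2 (Or.inr (Or.inl rfl)), rfl⟩
    · exact ⟨z, (he' z).2 (Or.inr (Or.inr rfl)), rfl⟩

/-- an edge which is the image of an edge -/
theorem fe_of_map {α β : Type} (F : Finset (Finset α)) (g : Finset α) (hg : g ∈ F) (f : α ↪ β)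
    {x y z : β} (hxy : x ≠ y) (hxz : x ≠ z) (hyz : y ≠ z)
    (hmem : ∀ w, w ∈ g.map f ↔ w = x ∨ w = y ∨ w = z) :
    ∃ x' y' z', f x' = x ∧ f y' = y ∧ f z' = z ∧ FE F x' y' z' := by
  obtain ⟨x', hx', rfl⟩ := mem_map.1 ((hmem x).2 (Or.inl rfl))
  obtain ⟨y', hy', rfl⟩ := mem_map.1 ((hmem y).2 (Or.inr (Or.inl rfl)))
  obtain ⟨z', hz', rfl⟩ := mem_map.1 ((hmem z).2 (Or.inr (Or.inr rfl)))
  refine ⟨x', y', z', rfl, rfl, rfl, (fe_iff F).2 ⟨fun h => hxy (by rw [h]),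
    fun h => hxz (by rw [h]), fun h => hyz (by rw [h]), g, hg, ?_⟩⟩
  intro w
  constructor
  · intro hw
    rcases (hmem (f w)).1 (mem_map.2 ⟨w, hw, rfl⟩) with h | h | h
    · exact Or.inl (f.injective h)
    · exact Or.inr (Or.inl (f.injective h))
    · exact Or.inr (Or.inr (f.injective h))
  · rintro (rfl | rfl | rfl)
    · exact hx'
    · exact hy'
    · exact hz'

theorem lex_sym {α β : Type} (F : Finset (Finset α)) (G : Finset (Finset β)) :
    ∀ e ∈ Lex F G, ∀ x y z, x ≠ y → x ≠ z → y ≠ z → (∀ w, w ∈ e ↔ w = x ∨ w = y ∨ w = z) →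
      LE (FE F) (FE G) x y z := by
  intro e he x y z hxy hxz hyz hmem
  rcases he with ⟨g, hg, c, rfl⟩ | ⟨v, g, hg, rfl⟩
  · obtain ⟨x', y', z', rfl, rfl, rfl, h⟩ := fe_of_map F g hg _ hxy hxz hyz hmem
    exact Or.inl h
  · obtain ⟨x', y', z', rfl, rfl, rfl, h⟩ := fe_of_map G g hg _ hxy hxz hyz hmem
    exact Or.inr ⟨rfl, rfl, h⟩

theorem dbl_sym {α : Type} (F : Finset (Finset α)) :
    ∀ e ∈ Dbl F, ∀ x y z, x ≠ y → x ≠ z → y ≠ z → (∀ w, w ∈ e ↔ w = x ∨ w = y ∨ w = z) →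
      DE (FE F) x y z := by
  intro e he x y z hxy hxz hyz hmem
  rcases he with ⟨g, hg, c, rfl⟩ | ⟨v, hv⟩
  · obtain ⟨x', y', z', rfl, rfl, rfl, h⟩ := fe_of_map F g hg _ hxy hxz hyz hmem
    exact h
  · have hx := (hv x).1 ((hmem x).2 (Or.inl rfl))
    have hy := (hv y).1 ((hmem y).2 (Or.inr (Or.inl rfl)))
    have hz := (hv z).1 ((hmem z).2 (Or.inr (Or.inr rfl)))
    rcases hx with rfl | rfl | rfl <;> rcases hy with rfl | rfl | rfl <;>
      rcases hz with rfl | rfl | rfl <;> first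
        | exact absurd rfl hxy
        | exact absurd rfl hxz
        | exact absurd rfl hyz
        | exact ⟨rfl, by simp⟩

theorem card_three {α : Type} {e : Finset α} {x y z : α} (h1 : x ≠ y) (h2 : x ≠ z) (h3 : y ≠ z)
    (h4 : ∀ w, w ∈ e ↔ w = x ∨ w = y ∨ w = z) : e.card = 3 := by
  classical
  have h5 : e = {x, y, z} := by
    ext w
    rw [h4 w]
    simp
  rw [h5]
  exact card_eq_three.2 ⟨x, y, z, h1, h2, h3, rfl⟩

theorem gen_main (hSub : S_SUB) (hD : S_DBL) (hP : S_PG) {k₀ : ℕ}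
    {F₀ : Finset (Finset (Fin k₀))} (hF₀ : ∀ e ∈ F₀, e.card = 3) {k : ℕ}
    {F : Finset (Finset (Fin k))} (h : Gen F₀ k F) :
    (∀ e ∈ F, e.card = 3) ∧ QP (FE F₀) (FE F) := by
  induction h with
  | base =>
      refine ⟨hF₀, 1, ?_⟩
      intro V rd L τ hrd hL hNB h0
      apply thr_mono (Nat.pow_le_pow_right (by norm_num) ?_) h0
      rw [one_mul, pow_one]
      exact le_trans (Nat.le_succ τ) (Nat.le_mul_of_pos_left _ hL)
  | label k d F a hF ha haF =>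
      refine ⟨hF, ?_⟩
      obtain ⟨K, hK⟩ := hP k d (FE F) a ha (by
        intro x y z hxyz
        have h5 := haF _ (fe_mem F hxyz)
        obtain ⟨h1, h2, h3, -⟩ := hxyz
        rw [sum_insert (by simp [h1, h2]), sum_insert (by simp [h3]), sum_singleton] at h5
        rw [add_assoc]
        exact h5)
      refine ⟨K, ?_⟩
      intro V rd L τ hrd hL hNB _
      exact thr_mono (Nat.pow_le_pow_right (by norm_num)
        (Nat.le_mul_of_pos_right _ (Nat.succ_pos τ))) (hK V rd L hrd hL hNB)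
  | lex k l m F G H _ _ hemb ihF ihG =>
      obtain ⟨f, hH⟩ := hemb
      refine ⟨?_, qp_emb f f.injective (emb_rel H (Lex F G) _ (lex_sym F G) f hH)
        (qp_lex hSub ihF.2 ihG.2)⟩
      intro e he
      have h1 := hH e he
      have h2 : (e.map f).card = e.card := card_map f
      rcases h1 with ⟨g, hg, c, h3⟩ | ⟨v, g, hg, h3⟩
      · rw [← h2, h3, card_map, ihF.1 g hg]
      · rw [← h2, h3, card_map, ihG.1 g hg]
  | dbl k m F H _ hemb ihF =>
      obtain ⟨f, hH⟩ := hemb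
      refine ⟨?_, qp_emb f f.injective (emb_rel H (Dbl F) _ (dbl_sym F) f hH)
        (qp_dbl hD ihF.2)⟩
      intro e he
      have h1 := hH e he
      have h2 : (e.map f).card = e.card := card_map f
      rcases h1 with ⟨g, hg, c, h3⟩ | ⟨v, h3⟩
      · rw [← h2, h3, card_map, ihF.1 g hg]
      · rw [← h2]
        exact card_three (by simp) (by simp) (by simp) h3

theorem gen_final (hSub : S_SUB) (hD : S_DBL) (hP : S_PG) {k₀ : ℕ}
    (F₀ : Finset (Finset (Fin k₀))) (hF₀ : ∀ e ∈ F₀, e.card = 3) {k : ℕ}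
    (F : Finset (Finset (Fin k))) (h : Gen F₀ k F) :
    ∃ K : ℕ, ∀ n ≥ 2, ∀ N ≥ 2, Arrows F₀ n N →
      ∃ N' ≤ N ^ (K * Nat.log 2 n ^ K), Arrows F n N' := by
  obtain ⟨hF, K₀, hK₀⟩ := gen_main hSub hD hP hF₀ h
  refine ⟨3 * K₀ * 2 ^ K₀ + K₀, ?_⟩
  intro n hn N hN hA
  set L := Nat.clog 2 n with hL
  set τ := Nat.clog 2 N with hτ
  refine ⟨2 ^ (K₀ * L ^ K₀ * (τ + 1)), ?_, ?_⟩
  · have h1 : τ + 1 ≤ 3 * Nat.log 2 N := by
      have h2 : 1 ≤ Nat.log 2 N := Nat.log_pos (by norm_num) hN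
      have h3 := clog_le N hN
      omega
    have h2 := pow_step (K₀ := K₀) (Nat.log_pos (by norm_num) hn) (clog_le n hn) h1
    calc 2 ^ (K₀ * L ^ K₀ * (τ + 1)) ≤
          2 ^ ((3 * K₀ * 2 ^ K₀ + K₀) * Nat.log 2 n ^ (3 * K₀ * 2 ^ K₀ + K₀) * Nat.log 2 N) :=
          Nat.pow_le_pow_right (by norm_num) h2
      _ = (2 ^ Nat.log 2 N) ^
          ((3 * K₀ * 2 ^ K₀ + K₀) * Nat.log 2 n ^ (3 * K₀ * 2 ^ K₀ + K₀)) := by
          rw [← pow_mul]
          congr 1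
          ring
      _ ≤ N ^ ((3 * K₀ * 2 ^ K₀ + K₀) * Nat.log 2 n ^ (3 * K₀ * 2 ^ K₀ + K₀)) :=
          Nat.pow_le_pow_left (Nat.pow_log_le_self 2 (by omega)) _
  · apply arrows_of_thr F (FE F) (le_pow_clog' n) (fe_of_card F hF)
    intro red hb hrd hNB
    exact hK₀ (Fin _) (Rdd red) L τ hrd (clog_pos n hn) hNB
      (thr_mono (le_pow_clog' N) (thr_of_arrows F₀ hA red hb))

end Fin4

end Pool.Agent.DXR
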