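import Pool.Agent.DXR.Stmts

/-!
One step of the doubling argument: averaging over the keys.
-/

namespace Pool.Agent.DXR

open Finset

namespace One

theorem key (a c y z b p r g : ℕ) (hy : y ≤ a) (hz : z ≤ c)
    (h : a ≤ 2 ^ (b + 1) * y → c ≤ 2 ^ (b + 1) * z → y ^ (r + 1) * z ≤ 2 ^ p * g) :
    a ^ r * (2 ^ (b + 1) * (y * z)) ≤ a ^ (r + 1) * c + 2 ^ ((r + 1) * (b + 1) + p) * g := by
  by_cases h1 : a * c ≤ 2 ^ (b + 1) * (y * z)
  · rcases Nat.eq_zero_or_pos c with hc | hc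
    · have hz0 : z = 0 := by omega
      rw [hz0]
      simp
    rcases Nat.eq_zero_or_pos a with ha | ha
    · have hy0 : y = 0 := by omega
      rw [hy0]
      simp
    have h2 : a ≤ 2 ^ (b + 1) * y := by
      refine Nat.le_of_mul_le_mul_right ?_ hc
      calc a * c ≤ 2 ^ (b + 1) * (y * z) := h1
        _ ≤ 2 ^ (b + 1) * (y * c) := by gcongr
        _ = 2 ^ (b + 1) * y * c := by ring
    have h3 : c ≤ 2 ^ (b + 1) * z := by
      refine Nat.le_of_mul_le_mul_right ?_ ha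
      calc c * a = a * c := by ring
        _ ≤ 2 ^ (b + 1) * (y * z) := h1
        _ ≤ 2 ^ (b + 1) * (a * z) := by gcongr
        _ = 2 ^ (b + 1) * z * a := by ring
    have h4 := h h2 h3
    calc a ^ r * (2 ^ (b + 1) * (y * z)) ≤ (2 ^ (b + 1) * y) ^ r * (2 ^ (b + 1) * (y * z)) := by
          gcongr
      _ = 2 ^ ((r + 1) * (b + 1)) * (y ^ (r + 1) * z) := by
          rw [mul_pow, ← pow_mul]
          ring
      _ ≤ 2 ^ ((r + 1) * (b + 1)) * (2 ^ p * g) := by gcongr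
      _ = 2 ^ ((r + 1) * (b + 1) + p) * g := by ring
      _ ≤ a ^ (r + 1) * c + 2 ^ ((r + 1) * (b + 1) + p) * g := Nat.le_add_left _ _
  · push Not at h1
    calc a ^ r * (2 ^ (b + 1) * (y * z)) ≤ a ^ r * (a * c) := by gcongr
      _ = a ^ (r + 1) * c := by ring
      _ ≤ a ^ (r + 1) * c + 2 ^ ((r + 1) * (b + 1) + p) * g := Nat.le_add_right _ _

end One

theorem ONE_thm : S_ONE := by
  intro V W J κ _ _ K A B Y Z b p Good hsub hsum hrob
  obtain ⟨r, hr⟩ : ∃ r, Fintype.card J = r + 1 :=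
    ⟨Fintype.card J - 1, (Nat.succ_pred_eq_of_pos Fintype.card_pos).symm⟩
  unfold Rob at hrob
  rw [hr] at hrob ⊢
  have h1 : ∀ k ∈ K, A.card ^ r * (2 ^ (b + 1) * ((Y k).card * (Z k).card)) ≤
      A.card ^ (r + 1) * B.card + 2 ^ ((r + 1) * (b + 1) + p) * gc Good (Y k) (Z k) := by
    intro k hk
    obtain ⟨hY, hZ⟩ := hsub k hk
    exact One.key _ _ _ _ _ _ _ _ (Finset.card_le_card hY) (Finset.card_le_card hZ)
      fun h2 h3 => hrob (Y k) (Z k) ⟨hY, h2⟩ ⟨hZ, h3⟩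
  have h2 := Finset.sum_le_sum h1
  rw [Finset.sum_add_distrib, Finset.sum_const, smul_eq_mul, ← Finset.mul_sum, ← Finset.mul_sum,
    ← Finset.mul_sum] at h2
  have h3 : A.card ^ r * (2 * (K.card * A.card * B.card)) ≤
      A.card ^ r * (2 ^ (b + 1) * ∑ k ∈ K, (Y k).card * (Z k).card) := by
    refine Nat.mul_le_mul le_rfl ?_
    calc 2 * (K.card * A.card * B.card) ≤
        2 * (2 ^ b * ∑ k ∈ K, (Y k).card * (Z k).card) := by gcongr
      _ = 2 ^ (b + 1) * ∑ k ∈ K, (Y k).card * (Z k).card := by ring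
  have h4 : A.card ^ r * (2 * (K.card * A.card * B.card)) =
      K.card * A.card ^ (r + 1) * B.card + K.card * (A.card ^ (r + 1) * B.card) := by ring
  have h5 := h3.trans h2
  rw [h4, add_comm] at h5
  exact Nat.le_of_add_le_add_left h5

end Pool.Agent.DXR
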