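import Pool.Agent.DXR.Stmts

/-!
# PG: 3-graphs labelled by vectors over the field with two elements
-/

namespace Pool.Agent.DXR

open Finset

namespace PG

theorem thr_mono {V I : Type} {rd : V → V → V → Prop} {E : I → I → I → Prop} {R R' : ℕ}
    (h : Thr rd E R) (hR : R ≤ R') : Thr rd E R' := fun S hS => h S (hR.trans hS)

theorem thr_emb {V I I' : Type} {rd : V → V → V → Prop} {E : I → I → I → Prop}
    {E' : I' → I' → I' → Prop} {R : ℕ} (h : Thr rd E R) (ι : I' → I)
    (hι : Function.Injective ι) (hE : ∀ x y z, E' x y z → E (ι x) (ι y) (ι z)) :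
    Thr rd E' R := by
  intro S hS
  obtain ⟨φ, h1, h2, h3⟩ := h S hS
  exact ⟨φ ∘ ι, fun i => h1 _, h2.comp hι, fun x y z hx => h3 _ _ _ (hE x y z hx)⟩

/-- The nonzero vectors. -/
abbrev Pt (d : ℕ) : Type := {v : Fin d → ZMod 2 // v ≠ 0}

/-- The lines. -/
def Ln (d : ℕ) (u v w : Pt d) : Prop := u.1 + v.1 + w.1 = 0

open Classical in
/-- The embedding in the doubling. -/
noncomputable def em {d : ℕ} (u : Pt (d + 1)) : Option (Pt d × Bool) :=
  if h : Fin.tail u.1 ≠ 0 then some (⟨Fin.tail u.1, h⟩, decide (u.1 0 = 1)) else none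

theorem zc (a : ZMod 2) : a = 0 ∨ a = 1 := by
  revert a
  decide

theorem ext' {d : ℕ} {u v : Pt (d + 1)} (h0 : u.1 0 = v.1 0) (ht : Fin.tail u.1 = Fin.tail v.1) :
    u = v := by
  apply Subtype.ext
  funext i
  refine Fin.cases h0 (fun i => ?_) i
  exact congrFun ht i

theorem head_of_tail {d : ℕ} {u : Pt (d + 1)} (h : Fin.tail u.1 = 0) : u.1 0 = 1 := by
  rcases zc (u.1 0) with h1 | h1
  · exfalso
    apply u.2
    funext i
    refine Fin.cases h1 (fun i => ?_) i
    exact congrFun h i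
  · exact h1

theorem em_none {d : ℕ} {u : Pt (d + 1)} (h : Fin.tail u.1 = 0) : em u = none := by
  rw [em, dif_neg (not_not.2 h)]

theorem em_some {d : ℕ} {u : Pt (d + 1)} (h : Fin.tail u.1 ≠ 0) :
    em u = some (⟨Fin.tail u.1, h⟩, decide (u.1 0 = 1)) := by
  rw [em, dif_pos h]

theorem em_inj (d : ℕ) : Function.Injective (em (d := d)) := by
  intro u v huv
  by_cases hu : Fin.tail u.1 = 0
  · by_cases hv : Fin.tail v.1 = 0
    · exact ext' ((head_of_tail hu).trans (head_of_tail hv).symm) (hu.trans hv.symm)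
    · rw [em_none hu, em_some hv] at huv
      simp at huv
  · by_cases hv : Fin.tail v.1 = 0
    · rw [em_some hu, em_none hv] at huv
      simp at huv
    · rw [em_some hu, em_some hv] at huv
      have h1 := Option.some_injective _ huv
      have h2 := congrArg (fun q => q.1.1) h1
      have h3 : decide (u.1 0 = 1) = decide (v.1 0 = 1) := congrArg (fun q => q.2) h1
      refine ext' ?_ h2
      rw [decide_eq_decide] at h3
      rcases zc (u.1 0) with h4 | h4
      · rcases zc (v.1 0) with h5 | h5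
        · rw [h4, h5]
        · rw [h3.2 h5, h5]
      · rw [h4, h3.1 h4]

theorem tail_add {d : ℕ} (u v : Fin (d + 1) → ZMod 2) :
    Fin.tail (u + v) = Fin.tail u + Fin.tail v := rfl

theorem two_eq {d : ℕ} {u v : Fin d → ZMod 2} (h : u + v = 0) : u = v := by
  funext i
  have h1 : u i + v i = 0 := congrFun h i
  rcases zc (u i) with h2 | h2 <;> rcases zc (v i) with h3 | h3 <;> rw [h2, h3] at h1 ⊢
  · simp at h1
  · simp at h1

theorem em_ln {d : ℕ} {u v w : Pt (d + 1)} (h : Ln (d + 1) u v w) :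
    DE (Ln d) (em u) (em v) (em w) := by
  have ht : Fin.tail u.1 + Fin.tail v.1 + Fin.tail w.1 = 0 := congrArg Fin.tail h
  have h0 : u.1 0 + v.1 0 + w.1 0 = 0 := congrFun h 0
  have hne : ∀ {x y : Pt (d + 1)}, x.1 0 + y.1 0 = 1 →
      decide (x.1 0 = 1) ≠ decide (y.1 0 = 1) := by
    intro x y hxy
    rcases zc (x.1 0) with h2 | h2 <;> rcases zc (y.1 0) with h3 | h3 <;> rw [h2, h3] at hxy ⊢
    · simp at hxy
    · decide
    · decide
    · exact absurd hxy (by decide)
  have hq : ∀ {x : ZMod 2}, 1 + x = 0 → x = 1 := by decide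
  have h1n : ¬ ((1 : ZMod 2) + 1 + 0 = 1) := by decide
  by_cases hu : Fin.tail u.1 = 0
  · have hu0 := head_of_tail hu
    rw [hu, zero_add] at ht
    have hvw := two_eq ht
    by_cases hv : Fin.tail v.1 = 0
    · have hw : Fin.tail w.1 = 0 := hvw.symm.trans hv
      rw [hu0, head_of_tail hv, head_of_tail hw] at h0
      exact absurd h0 (by decide)
    · have hw : Fin.tail w.1 ≠ 0 := fun hw => hv (hvw.trans hw)
      rw [em_none hu, em_some hv, em_some hw]
      refine ⟨Subtype.ext hvw, hne ?_⟩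
      rw [hu0, add_assoc] at h0
      exact hq h0
  · by_cases hv : Fin.tail v.1 = 0
    · have hv0 := head_of_tail hv
      rw [hv, add_zero] at ht
      have huw := two_eq ht
      have hw : Fin.tail w.1 ≠ 0 := fun hw => hu (huw.trans hw)
      rw [em_some hu, em_none hv, em_some hw]
      refine ⟨Subtype.ext huw, hne ?_⟩
      rw [hv0, add_comm (u.1 0) 1, add_assoc] at h0
      exact hq h0
    · by_cases hw : Fin.tail w.1 = 0
      · have hw0 := head_of_tail hw
        rw [hw, add_zero] at ht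
        have huv := two_eq ht
        rw [em_some hu, em_some hv, em_none hw]
        refine ⟨Subtype.ext huv, hne ?_⟩
        rw [hw0, add_comm _ 1] at h0
        exact hq h0
      · rw [em_some hu, em_some hv, em_some hw]
        exact ht

/-- The thresholds of the projective spaces. -/
theorem thr_pg (hD : S_DBL) (d : ℕ) : ∃ K : ℕ, ∀ (V : Type) (rd : V → V → V → Prop) (L : ℕ),
    IsRed rd → 1 ≤ L → NoBlue rd L → Thr rd (Ln d) (2 ^ (K * L ^ K)) := by
  induction d with
  | zero =>
    refine ⟨0, fun V rd L _ _ _ S _ => ?_⟩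
    have h1 : IsEmpty (Pt 0) := ⟨fun u => u.2 (Subsingleton.elim _ _)⟩
    exact ⟨fun u => h1.elim u, fun u => h1.elim u, fun u => h1.elim u, fun u => h1.elim u⟩
  | succ d ih =>
    obtain ⟨K', hK'⟩ := ih
    obtain ⟨K, hK⟩ := hD (Fintype.card (Pt d))
    refine ⟨K * (K' + 1) + (K + K'), fun V rd L hr hL hN => ?_⟩
    have h1 := hK V (Pt d) rd (Ln d) L (K' * L ^ K') hr hL hN rfl (hK' V rd L hr hL hN)
    refine thr_mono (thr_emb h1 em (em_inj d) fun x y z h => em_ln h) ?_
    refine Nat.pow_le_pow_right (by norm_num) ?_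
    have h2 : 1 ≤ L ^ K' := Nat.one_le_pow _ _ hL
    calc K * L ^ K * (K' * L ^ K' + 1) ≤ K * L ^ K * (K' * L ^ K' + L ^ K') := by gcongr
      _ = K * (K' + 1) * L ^ (K + K') := by rw [pow_add]; ring
      _ ≤ (K * (K' + 1) + (K + K')) * L ^ (K * (K' + 1) + (K + K')) :=
        Nat.mul_le_mul (Nat.le_add_right _ _) (Nat.pow_le_pow_right hL (Nat.le_add_left _ _))

/-- The empty relation. -/
theorem thr_empty {V : Type} (rd : V → V → V → Prop) (k : ℕ) :
    Thr rd (fun _ _ _ : Fin k => False) (2 ^ k) := by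
  intro S hS
  have h1 : Fintype.card (Fin k) ≤ Fintype.card S := by
    rw [Fintype.card_fin, Fintype.card_coe]
    exact (Nat.lt_two_pow_self).le.trans hS
  obtain ⟨e⟩ := Function.Embedding.nonempty_of_card_le h1
  exact ⟨fun i => e i, fun i => (e i).2, Subtype.val_injective.comp e.injective,
    fun _ _ _ h => h.elim⟩

end PG

open PG in
theorem PG_thm (hS : S_SUB) (hD : S_DBL) : S_PG := by
  intro k d E a ha hE
  obtain ⟨K, hK⟩ := thr_pg hD d
  obtain ⟨K1, hK1⟩ := hS (Fintype.card (Pt d)) k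
  refine ⟨K1 * (K + k + 1) + K, fun V rd L hr hL hN => ?_⟩
  have h1 : Thr rd (Ln d) (2 ^ (K * L ^ K + k)) :=
    thr_mono (hK V rd L hr hL hN) (Nat.pow_le_pow_right (by norm_num) (Nat.le_add_right _ _))
  have h2 : Thr rd (fun _ _ _ : Fin k => False) (2 ^ (K * L ^ K + k)) :=
    thr_mono (thr_empty rd k) (Nat.pow_le_pow_right (by norm_num) (Nat.le_add_left _ _))
  have h3 := hK1 V (Pt d) (Fin k) rd (Ln d) (fun _ _ _ => False) (K * L ^ K + k) hr rfl
    (Fintype.card_fin k) h1 h2
  refine thr_mono (thr_emb h3 (fun x => (⟨a x, ha x⟩, x)) (fun x y h => congrArg Prod.snd h)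
    (fun x y z h => Or.inl (hE x y z h))) ?_
  refine Nat.pow_le_pow_right (by norm_num) ?_
  have h4 : 1 ≤ L ^ K := Nat.one_le_pow _ _ hL
  calc K1 * (K * L ^ K + k + 1) ≤ K1 * (K * L ^ K + k * L ^ K + L ^ K) := by
        gcongr
        exact Nat.le_mul_of_pos_right _ h4
    _ = K1 * (K + k + 1) * L ^ K := by ring
    _ ≤ (K1 * (K + k + 1) + K) * L ^ (K1 * (K + k + 1) + K) :=
      Nat.mul_le_mul (Nat.le_add_right _ _) (Nat.pow_le_pow_right hL (Nat.le_add_left _ _))

end Pool.Agent.DXR
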