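import Pool.Agent.DXR.Stmts

/-!
The quotient of a linear 3-graph by a maximal matching.
-/

namespace Pool.Agent.DXR

open Finset

namespace Quot

variable {s : ℕ}

theorem exists_matching (F : Finset (Finset (Fin s))) (h3 : ∀ e ∈ F, e.card = 3) :
    ∃ M ⊆ F, (∀ e ∈ M, ∀ f ∈ M, e ≠ f → Disjoint e f) ∧ ∀ e ∈ F, ∃ f ∈ M, ¬ Disjoint e f := by
  classical
  set S := F.powerset.filter (fun M => ∀ e ∈ M, ∀ f ∈ M, e ≠ f → Disjoint e f) with hS
  have hne : S.Nonempty := ⟨∅, by simp [hS]⟩
  obtain ⟨M, hM, hmax⟩ := Finset.exists_max_image S Finset.card hne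
  rw [hS, Finset.mem_filter, Finset.mem_powerset] at hM
  refine ⟨M, hM.1, hM.2, fun e he => ?_⟩
  by_contra hcon
  push Not at hcon
  have he0 : ¬ Disjoint e e := by
    intro h
    have h1 := h3 e he
    rw [disjoint_self] at h
    rw [h] at h1
    simp at h1
  have heM : e ∉ M := fun h => he0 (hcon e h)
  have h1 : insert e M ∈ S := by
    rw [hS, Finset.mem_filter, Finset.mem_powerset]
    refine ⟨Finset.insert_subset he hM.1, ?_⟩
    intro f hf g hg hfg
    rcases Finset.mem_insert.1 hf with hfe | hf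
    · rcases Finset.mem_insert.1 hg with hge | hg
      · exact absurd (hfe.trans hge.symm) hfg
      · rw [hfe]
        exact hcon g hg
    · rcases Finset.mem_insert.1 hg with hge | hg
      · rw [hge]
        exact (hcon f hf).symm
      · exact hM.2 f hf g hg hfg
  have h2 := hmax _ h1
  rw [Finset.card_insert_of_notMem heM] at h2
  omega

open Classical in
/-- The block of `x`. -/
noncomputable def blk (M : Finset (Finset (Fin s))) (x : Fin s) : Finset (Fin s) :=
  if h : ∃ e ∈ M, x ∈ e then h.choose else {x}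

variable {M : Finset (Finset (Fin s))} (hM : ∀ e ∈ M, ∀ f ∈ M, e ≠ f → Disjoint e f)

include hM in
theorem blk_of_mem {e : Finset (Fin s)} (he : e ∈ M) {x : Fin s} (hx : x ∈ e) : blk M x = e := by
  have h : ∃ e ∈ M, x ∈ e := ⟨e, he, hx⟩
  rw [blk, dif_pos h]
  obtain ⟨h1, h2⟩ := h.choose_spec
  by_contra hne
  exact Finset.disjoint_left.1 (hM _ h1 _ he hne) h2 hx

theorem blk_of_not {x : Fin s} (h : ¬ ∃ e ∈ M, x ∈ e) : blk M x = {x} := by
  rw [blk, dif_neg h]

theorem mem_blk (M : Finset (Finset (Fin s))) (x : Fin s) : x ∈ blk M x := by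
  by_cases h : ∃ e ∈ M, x ∈ e
  · rw [blk, dif_pos h]
    exact h.choose_spec.2
  · rw [blk_of_not h]
    simp

theorem blk_cases (M : Finset (Finset (Fin s))) (x : Fin s) : blk M x ∈ M ∨ blk M x = {x} := by
  by_cases h : ∃ e ∈ M, x ∈ e
  · left
    rw [blk, dif_pos h]
    exact h.choose_spec.1
  · right
    exact blk_of_not h

include hM in
theorem blk_eq {x y : Fin s} (hy : y ∈ blk M x) : blk M y = blk M x := by
  rcases blk_cases M x with h | h
  · exact blk_of_mem hM h hy
  · rw [h, Finset.mem_singleton] at hy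
    rw [hy]

/-- The first point of the block. -/
noncomputable def q (M : Finset (Finset (Fin s))) (x : Fin s) : Fin s :=
  (blk M x).min' ⟨x, mem_blk M x⟩

theorem q_mem (M : Finset (Finset (Fin s))) (x : Fin s) : q M x ∈ blk M x :=
  Finset.min'_mem _ _

include hM in
theorem blk_of_q {x y : Fin s} (h : q M x = q M y) : blk M x = blk M y := by
  rw [← blk_eq hM (q_mem M x), ← blk_eq hM (q_mem M y), h]

theorem q_of_blk {x y : Fin s} (h : blk M x = blk M y) : q M x = q M y := by
  unfold q
  simp only [h]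

/-- The rank in the block. -/
noncomputable def rk (M : Finset (Finset (Fin s))) (x : Fin s) : ℕ :=
  ((blk M x).filter (fun y => y < x)).card

theorem rk_lt (h3 : ∀ e ∈ M, e.card = 3) (x : Fin s) : rk M x < 3 := by
  have h1 : rk M x < (blk M x).card := by
    refine Finset.card_lt_card ?_
    rw [Finset.ssubset_iff_of_subset (Finset.filter_subset _ _)]
    exact ⟨x, mem_blk M x, by simp⟩
  have h2 : (blk M x).card ≤ 3 := by
    rcases blk_cases M x with h | h
    · exact (h3 _ h).le
    · rw [h]
      simp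
  omega

theorem rk_strict {x y : Fin s} (h : blk M x = blk M y) (hxy : x < y) : rk M x < rk M y := by
  unfold rk
  rw [h]
  refine Finset.card_lt_card ?_
  rw [Finset.ssubset_iff_of_subset]
  · refine ⟨x, ?_, by simp⟩
    rw [Finset.mem_filter, ← h]
    exact ⟨mem_blk M x, hxy⟩
  · intro z hz
    rw [Finset.mem_filter] at hz ⊢
    exact ⟨hz.1, hz.2.trans hxy⟩

theorem eq_of_rk {x y : Fin s} (h : blk M x = blk M y) (hxy : rk M x = rk M y) : x = y := by
  rcases lt_trichotomy x y with h1 | h1 | h1
  · have := rk_strict h h1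
    omega
  · exact h1
  · have := rk_strict h.symm h1
    omega

end Quot

theorem QUOT_thm : S_QUOT := by
  classical
  intro s F hs h3 hlin
  obtain ⟨M, hMF, hM, hmax⟩ := Quot.exists_matching F h3
  have h3M : ∀ e ∈ M, e.card = 3 := fun e he => h3 e (hMF he)
  set q := Quot.q M with hq
  -- the covered points
  set U : Finset (Fin s) := M.biUnion id with hU
  have hUcard : U.card = M.card * 3 := by
    rw [hU, Finset.card_biUnion]
    · show ∑ e ∈ M, e.card = _
      rw [Finset.sum_congr rfl (fun e he => h3M e he), Finset.sum_const, smul_eq_mul]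
    · intro e he f hf hef
      exact hM e he f hf hef
  have hmemU : ∀ x, x ∈ U ↔ ∃ e ∈ M, x ∈ e := by
    intro x
    rw [hU, Finset.mem_biUnion]
    rfl
  set R : Finset (Fin s) := Uᶜ with hR
  have hRcard : U.card + R.card = s := by
    rw [hR, Finset.card_add_card_compl, Fintype.card_fin]
  have hqR : ∀ x ∈ R, q x = x := by
    intro x hx
    rw [hR, Finset.mem_compl, hmemU] at hx
    have h1 := Quot.q_mem M x
    rw [Quot.blk_of_not hx, Finset.mem_singleton] at h1
    exact h1
  have hqU : ∀ x ∈ U, q x ∈ U := by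
    intro x hx
    rw [hmemU] at hx ⊢
    obtain ⟨e, he, hxe⟩ := hx
    have h1 := Quot.q_mem M x
    rw [Quot.blk_of_mem hM he hxe] at h1
    exact ⟨e, he, h1⟩
  set Q : Finset (Fin s) := U.image q with hQ
  have hQU : Q ⊆ U := by
    intro y hy
    rw [hQ, Finset.mem_image] at hy
    obtain ⟨x, hx, rfl⟩ := hy
    exact hqU x hx
  have hQcard : Q.card ≤ M.card := by
    have h1 : Q ⊆ M.image (fun e => if h : e.Nonempty then q h.choose else ⟨0, by omega⟩) := by
      intro y hy
      rw [hQ, Finset.mem_image] at hy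
      obtain ⟨x, hx, rfl⟩ := hy
      rw [hmemU] at hx
      obtain ⟨e, he, hxe⟩ := hx
      rw [Finset.mem_image]
      refine ⟨e, he, ?_⟩
      have hne : e.Nonempty := ⟨x, hxe⟩
      rw [dif_pos hne]
      apply Quot.q_of_blk
      rw [Quot.blk_of_mem hM he hxe, Quot.blk_of_mem hM he hne.choose_spec]
    exact (Finset.card_le_card h1).trans Finset.card_image_le
  -- the edges outside of the matching
  have hinj : ∀ e ∈ F, e ∉ M → ∀ x ∈ e, ∀ y ∈ e, q x = q y → x = y := by
    intro e he heM x hx y hy hxy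
    by_contra hne
    have h1 := Quot.blk_of_q hM hxy
    have hyx : y ∈ Quot.blk M x := by
      rw [h1]
      exact Quot.mem_blk M y
    rcases Quot.blk_cases M x with h | h
    · have h2 : e ≠ Quot.blk M x := fun h4 => heM (h4 ▸ h)
      have h4 := hlin e he _ (hMF h) h2
      have h5 : ({x, y} : Finset (Fin s)) ⊆ e ∩ Quot.blk M x := by
        intro z hz
        rw [Finset.mem_insert, Finset.mem_singleton] at hz
        rw [Finset.mem_inter]
        rcases hz with rfl | rfl
        · exact ⟨hx, Quot.mem_blk M _⟩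
        · exact ⟨hy, hyx⟩
      have h6 := Finset.card_le_card h5
      rw [Finset.card_pair hne] at h6
      omega
    · rw [h, Finset.mem_singleton] at hyx
      exact hne hyx.symm
  have himg3 : ∀ e ∈ F, e ∉ M → (e.image q).card = 3 := by
    intro e he heM
    rw [Finset.card_image_of_injOn, h3 e he]
    intro x hx y hy hxy
    exact hinj e he heM x hx y hy hxy
  have hmeet : ∀ e ∈ F, ∃ y ∈ e.image q, y ∈ Q := by
    intro e he
    obtain ⟨f, hf, hdis⟩ := hmax e he
    rw [Finset.not_disjoint_iff] at hdis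
    obtain ⟨x, hxe, hxf⟩ := hdis
    refine ⟨q x, Finset.mem_image_of_mem q hxe, Finset.mem_image_of_mem q ?_⟩
    rw [hmemU]
    exact ⟨f, hf, hxf⟩
  have hQR : ∀ x, q x ∈ Q ∨ q x ∈ R := by
    intro x
    by_cases hx : x ∈ U
    · exact Or.inl (Finset.mem_image_of_mem q hx)
    · right
      have h1 : x ∈ R := by
        rw [hR, Finset.mem_compl]
        exact hx
      rw [hqR x h1]
      exact h1
  obtain ⟨W, hWQ, hWcard⟩ := Finset.exists_subset_card_eq (s := Q) (n := min Q.card (2 - R.card))
    (min_le_left _ _)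
  refine ⟨(F.filter (fun e => e ∉ M)).image (fun e => e.image q), Q \ W, q,
    fun x => ⟨Quot.rk M x, Quot.rk_lt h3M x⟩, ?_, ?_, ?_, ?_, ?_⟩
  · intro e' he'
    rw [Finset.mem_image] at he'
    obtain ⟨e, he, rfl⟩ := he'
    rw [Finset.mem_filter] at he
    exact himg3 e he.1 he.2
  · intro e' he' hdis
    rw [Finset.mem_image] at he'
    obtain ⟨e, he, rfl⟩ := he'
    rw [Finset.mem_filter] at he
    have h1 : e.image q ⊆ W ∪ R := by
      intro y hy
      have h2 : y ∉ Q \ W := Finset.disjoint_left.1 hdis hy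
      rw [Finset.mem_image] at hy
      obtain ⟨x, -, rfl⟩ := hy
      rw [Finset.mem_union]
      rcases hQR x with h4 | h4
      · left
        by_contra h5
        exact h2 (Finset.mem_sdiff.2 ⟨h4, h5⟩)
      · exact Or.inr h4
    by_cases hR2 : 2 ≤ R.card
    · have hW0 : W = ∅ := by
        rw [← Finset.card_eq_zero, hWcard]
        omega
      obtain ⟨y, hy, hyQ⟩ := hmeet e he.1
      have h2 := h1 hy
      rw [hW0, Finset.empty_union, hR, Finset.mem_compl] at h2
      exact h2 (hQU hyQ)
    · have h2 := Finset.card_le_card h1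
      have h4 := Finset.card_union_le W R
      rw [himg3 e he.1 he.2] at h2
      omega
  · rw [Finset.card_sdiff_of_subset hWQ, hWcard]
    omega
  · intro x y hxy
    obtain ⟨h1, h2⟩ := Prod.mk.inj hxy
    exact Quot.eq_of_rk (Quot.blk_of_q hM h1) (Fin.mk.inj h2)
  · intro e he
    by_cases heM : e ∈ M
    · right
      constructor
      · intro x hx y hy
        apply Quot.q_of_blk
        rw [Quot.blk_of_mem hM heM hx, Quot.blk_of_mem hM heM hy]
      · intro x hx y hy hxy
        rw [Fin.mk.injEq] at hxy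
        refine Quot.eq_of_rk ?_ hxy
        rw [Quot.blk_of_mem hM heM hx, Quot.blk_of_mem hM heM hy]
    · left
      rw [Finset.mem_image]
      exact ⟨e, Finset.mem_filter.2 ⟨he, heM⟩, rfl⟩

end Pool.Agent.DXR
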