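import Pool.Agent.DXR.Stmts

/-!
Module DXR_STEP: all coordinates, by induction with `Fin.cons`.
-/

namespace Pool.Agent.DXR.Step

open Finset

theorem mem_pi {I V : Type} [Fintype I] (inst : DecidableEq I) {s : I → Finset V} {f : I → V} :
    f ∈ @Fintype.piFinset I inst _ (fun _ => V) s ↔ ∀ i, f i ∈ s i :=
  Fintype.mem_piFinset

theorem mem_flt {α : Type} {p : α → Prop} (inst : DecidablePred p) {s : Finset α} {a : α} :
    a ∈ @Finset.filter α p inst s ↔ a ∈ s ∧ p a :=
  Finset.mem_filter

theorem cnt_eq' {V I : Type} [Fintype I] [DecidableEq I] (A : Finset V) (P : (I → V) → Prop)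
    [DecidablePred P] : cnt A P = ((Fintype.piFinset (fun _ : I => A)).filter P).card := by
  unfold cnt
  refine Finset.card_bij (fun f _ => f) ?_ (fun _ _ _ _ h => h) ?_
  · intro f hf
    rw [mem_flt, mem_pi] at hf ⊢
    exact hf
  · intro f hf
    rw [mem_flt, mem_pi] at hf
    refine ⟨f, ?_, rfl⟩
    rw [mem_flt, mem_pi]
    exact hf

theorem gc_eq' {V W J : Type} [Fintype J] [DecidableEq J] (Good : (J → V) → W → Prop)
    [DecidablePred (fun q : (J → V) × W => Good q.1 q.2)] (Y : Finset V) (Z : Finset W) :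
    gc Good Y Z =
      (((Fintype.piFinset (fun _ : J => Y)) ×ˢ Z).filter (fun q => Good q.1 q.2)).card := by
  unfold gc
  refine Finset.card_bij (fun f _ => f) ?_ (fun _ _ _ _ h => h) ?_
  · intro f hf
    rw [mem_flt, Finset.mem_product, mem_pi] at hf ⊢
    exact hf
  · intro f hf
    rw [mem_flt, Finset.mem_product, mem_pi] at hf
    refine ⟨f, ?_, rfl⟩
    rw [mem_flt, Finset.mem_product, mem_pi]
    exact hf

theorem mem_pipi {I J V : Type} [Fintype I] [Fintype J] (inst : DecidableEq I)
    (inst' : DecidableEq J) {A : Finset V} {f : I → J → V} :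
    f ∈ @Fintype.piFinset I inst _ (fun _ => J → V)
      (fun _ => @Fintype.piFinset J inst' _ (fun _ => V) (fun _ => A)) ↔ ∀ i j, f i j ∈ A := by
  rw [Fintype.mem_piFinset]
  refine forall_congr' ?_
  intro i
  rw [Fintype.mem_piFinset]

theorem cntr_eq' {V W I J : Type} [Fintype I] [DecidableEq I] [Fintype J] [DecidableEq J]
    (P : (I → V) → Prop) (Good : (J → V) → W → Prop) (A : Finset V) (B : Finset W)
    [DecidablePred (fun q : (I → J → V) × W =>
      (∀ c : I → J, P (fun i => q.1 i (c i))) ∧ ∀ i, Good (q.1 i) q.2)] :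
    cntr P Good A B =
    (((Fintype.piFinset (fun _ : I => Fintype.piFinset (fun _ : J => A))) ×ˢ B).filter
    (fun q => (∀ c : I → J, P (fun i => q.1 i (c i))) ∧ ∀ i, Good (q.1 i) q.2)).card := by
  unfold cntr
  refine Finset.card_bij (fun f _ => f) ?_ (fun _ _ _ _ h => h) ?_
  · intro f hf
    rw [mem_flt, Finset.mem_product, mem_pipi] at hf ⊢
    exact hf
  · intro f hf
    rw [mem_flt, Finset.mem_product, mem_pipi] at hf
    refine ⟨f, ?_, rfl⟩
    rw [mem_flt, Finset.mem_product, mem_pipi]
    exact hf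

theorem rob_mono {V W J : Type} [Fintype J] (Good : (J → V) → W → Prop) {b c p : ℕ}
    {A : Finset V} {B : Finset W} (hbc : b ≤ c) (h : Rob Good c p A B) : Rob Good b p A B := by
  intro Y Z hY hZ
  refine h Y Z ⟨hY.1, hY.2.trans ?_⟩ ⟨hZ.1, hZ.2.trans ?_⟩
  · exact Nat.mul_le_mul_right _ (Nat.pow_le_pow_right (by norm_num) hbc)
  · exact Nat.mul_le_mul_right _ (Nat.pow_le_pow_right (by norm_num) hbc)

theorem cnt_succ {V : Type} {i : ℕ} (A : Finset V) (P : (Fin (i + 1) → V) → Prop) :
    cnt A P = ∑ y ∈ A, cnt A (fun φ : Fin i → V => P (Fin.cons y φ)) := by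
  classical
  simp only [cnt_eq']
  rw [Finset.card_eq_sum_card_fiberwise (f := fun f : Fin (i + 1) → V => f 0) (t := A)]
  · refine Finset.sum_congr rfl ?_
    intro y hy
    refine Finset.card_bij (fun f _ => Fin.tail f) ?_ ?_ ?_
    · intro f hf
      rw [Finset.mem_filter, Finset.mem_filter, Fintype.mem_piFinset] at hf
      rw [Finset.mem_filter, Fintype.mem_piFinset]
      refine ⟨fun j => hf.1.1 j.succ, ?_⟩
      have h0 : f 0 = y := hf.2
      rw [← h0, Fin.cons_self_tail]
      exact hf.1.2
    · intro f hf g hg hfg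
      rw [Finset.mem_filter] at hf hg
      have h0 : f 0 = g 0 := hf.2.trans hg.2.symm
      rw [← Fin.cons_self_tail f, ← Fin.cons_self_tail g, h0]
      rw [show Fin.tail f = Fin.tail g from hfg]
    · intro g hg
      rw [Finset.mem_filter, Fintype.mem_piFinset] at hg
      refine ⟨Fin.cons y g, ?_, ?_⟩
      · rw [Finset.mem_filter, Finset.mem_filter, Fintype.mem_piFinset]
        refine ⟨⟨?_, hg.2⟩, ?_⟩
        · intro j
          refine Fin.cases ?_ ?_ j
          · simpa using hy
          · intro k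
            simpa using hg.1 k
        · simp
      · exact Fin.tail_cons _ _
  · intro f hf
    rw [Finset.mem_coe, Finset.mem_filter, Fintype.mem_piFinset] at hf
    exact hf.1 0

theorem cnt_le {V : Type} {i : ℕ} (A : Finset V) (P : (Fin i → V) → Prop) :
    cnt A P ≤ A.card ^ i := by
  classical
  rw [cnt_eq']
  refine (Finset.card_filter_le _ _).trans ?_
  rw [Fintype.card_piFinset]
  simp

open Classical in
theorem cntr_eq {V W J : Type} [Fintype J] {i : ℕ} (P : (Fin i → V) → Prop)
    (Good : (J → V) → W → Prop) (A : Finset V) (B : Finset W) :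
    cntr P Good A B =
      ∑ ω ∈ Fintype.piFinset (fun _ : Fin i => Fintype.piFinset (fun _ : J => A)),
        (if (∀ c : Fin i → J, P (fun j => ω j (c j))) then
          (B.filter (fun t => ∀ j, Good (ω j) t)).card else 0) := by
  rw [cntr_eq']
  rw [Finset.card_filter, Finset.sum_product]
  refine Finset.sum_congr rfl ?_
  intro ω _
  split_ifs with h
  · rw [Finset.card_filter]
    refine Finset.sum_congr rfl ?_
    intro t _
    by_cases ht : ∀ j, Good (ω j) t
    · rw [if_pos ⟨h, ht⟩, if_pos ht]
    · rw [if_neg (fun hh => ht hh.2), if_neg ht]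
  · refine Finset.sum_eq_zero ?_
    intro t _
    rw [if_neg (fun hh => h hh.1)]

open Classical in
theorem sum_cntr {V W J : Type} [Fintype J] {i : ℕ} (P : (Fin (i + 1) → V) → Prop)
    (Good : (J → V) → W → Prop) (A : Finset V) (B : Finset W) :
    ∑ y ∈ A, cntr (fun φ : Fin i → V => P (Fin.cons y φ)) Good A B =
      ∑ ω ∈ Fintype.piFinset (fun _ : Fin i => Fintype.piFinset (fun _ : J => A)),
        (A.filter (fun y => ∀ c : Fin i → J, P (Fin.cons y (fun j => ω j (c j))))).card *
          (B.filter (fun t => ∀ j, Good (ω j) t)).card := by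
  simp only [cntr_eq]
  rw [Finset.sum_comm]
  refine Finset.sum_congr rfl ?_
  intro ω _
  rw [Finset.card_filter (fun y => ∀ c : Fin i → J, P (Fin.cons y (fun j => ω j (c j)))),
    Finset.sum_mul]
  refine Finset.sum_congr rfl ?_
  intro y _
  split_ifs with h
  · rw [one_mul]
  · rw [zero_mul]

open Classical in
theorem sum_gc_le {V W J : Type} [Fintype J] {i : ℕ} (P : (Fin (i + 1) → V) → Prop)
    (Good : (J → V) → W → Prop) (A : Finset V) (B : Finset W) :
    ∑ ω ∈ Fintype.piFinset (fun _ : Fin i => Fintype.piFinset (fun _ : J => A)),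
        gc Good (A.filter (fun y => ∀ c : Fin i → J, P (Fin.cons y (fun j => ω j (c j)))))
          (B.filter (fun t => ∀ j, Good (ω j) t)) ≤ cntr P Good A B := by
  simp only [gc_eq', cntr_eq']
  rw [← Finset.card_sigma]
  refine Finset.card_le_card_of_injOn
    (fun x : (Σ _ : (Fin i → J → V), (J → V) × W) =>
      ((Fin.cons x.2.1 x.1 : Fin (i + 1) → J → V), x.2.2)) ?_ ?_
  · rintro ⟨ω, κ, t⟩ hx
    rw [Finset.mem_coe, Finset.mem_sigma, Finset.mem_filter, Finset.mem_product,
      Fintype.mem_piFinset, Fintype.mem_piFinset, Finset.mem_filter] at hx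
    obtain ⟨h1, ⟨h2, h3⟩, h4⟩ := hx
    dsimp only at h1 h2 h3 h4
    rw [Finset.mem_coe, Finset.mem_filter, Finset.mem_product, Fintype.mem_piFinset]
    dsimp only
    refine ⟨⟨?_, h3.1⟩, ?_, ?_⟩
    · intro j
      refine Fin.cases ?_ ?_ j
      · rw [Fin.cons_zero, Fintype.mem_piFinset]
        intro l
        exact (Finset.mem_filter.mp (h2 l)).1
      · intro k
        rw [Fin.cons_succ]
        exact h1 k
    · intro c
      have h5 := (Finset.mem_filter.mp (h2 (c 0))).2 (fun j => c j.succ)
      have h6 : (fun j : Fin (i + 1) => (Fin.cons κ ω : Fin (i + 1) → J → V) j (c j)) =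
          Fin.cons (κ (c 0)) (fun j => ω j (c j.succ)) := by
        funext j
        refine Fin.cases ?_ ?_ j
        · rw [Fin.cons_zero, Fin.cons_zero]
        · intro k
          rw [Fin.cons_succ, Fin.cons_succ]
      show P (fun j : Fin (i + 1) => (Fin.cons κ ω : Fin (i + 1) → J → V) j (c j))
      rw [h6]
      exact h5
    · intro j
      refine Fin.cases ?_ ?_ j
      · rw [Fin.cons_zero]
        exact h4
      · intro k
        rw [Fin.cons_succ]
        exact h3.2 k
  · rintro ⟨ω, κ, t⟩ _ ⟨ω', κ', t'⟩ _ hxy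
    dsimp only at hxy
    rw [Prod.mk.injEq] at hxy
    obtain ⟨h1, h2⟩ := hxy
    have h3 := Fin.cons_injective2 h1
    obtain ⟨h4, h5⟩ := h3
    subst h4
    subst h5
    subst h2
    rfl

theorem step_fin (hone : S_ONE) {V W J : Type} [Fintype J] [Nonempty J] (A : Finset V)
    (B : Finset W) (Good : (J → V) → W → Prop) (a : ℕ) (α β p : ℕ → ℕ) :
    ∀ (i : ℕ) (P : (Fin i → V) → Prop),
      (∀ j < i, a + α j + 1 ≤ β j ∧ Fintype.card J * β j + p j ≤ α (j + 1) ∧
        Rob Good (β j) (p j) A B) →
      2 ^ i * A.card ^ i ≤ 2 ^ a * cnt A P →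
      A.card ^ (Fintype.card J * i) * B.card ≤ 2 ^ (α i) * cntr P Good A B := by
  classical
  intro i
  induction i with
  | zero =>
    intro P _ h
    have h1 : 0 < cnt A P := by
      rcases Nat.eq_zero_or_pos (cnt A P) with h0 | h0
      · rw [h0] at h
        simp at h
      · exact h0
    rw [cnt_eq'] at h1
    obtain ⟨f, hf⟩ := Finset.card_pos.mp h1
    have h2 : ∀ g : Fin 0 → V, P g := by
      intro g
      have : g = f := Subsingleton.elim _ _
      rw [this]
      exact (Finset.mem_filter.mp hf).2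
    rw [cntr_eq]
    have h3 : Fintype.piFinset (fun _ : Fin 0 => Fintype.piFinset (fun _ : J => A)) =
        {(fun x => x.elim0)} := by
      ext g
      simp only [Fintype.mem_piFinset, Finset.mem_singleton]
      exact ⟨fun _ => Subsingleton.elim _ _, fun _ j => j.elim0⟩
    rw [h3, Finset.sum_singleton, if_pos (fun c => h2 _)]
    have h4 : (B.filter (fun t => ∀ j : Fin 0, Good (j.elim0) t)) = B := by
      refine Finset.filter_true_of_mem ?_
      intro t _ j
      exact j.elim0
    have h5 : (B.filter (fun t => ∀ j : Fin 0, Good ((fun x : Fin 0 => x.elim0) j) t)).card =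
        B.card := by
      congr 1
    rw [mul_zero, pow_zero, one_mul, h5]
    exact Nat.le_mul_of_pos_left _ (by positivity)
  | succ i ih =>
    intro P hrob h
    have hr : 0 < Fintype.card J := Fintype.card_pos
    rcases Finset.eq_empty_or_nonempty A with hA | hA
    · subst hA
      rw [Finset.card_empty, zero_pow (by positivity), zero_mul]
      exact Nat.zero_le _
    have hApos : 0 < A.card := Finset.card_pos.mpr hA
    set s : V → ℕ := fun y => cnt A (fun φ : Fin i → V => P (Fin.cons y φ)) with hs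
    have hsum : cnt A P = ∑ y ∈ A, s y := cnt_succ A P
    set G : Finset V := A.filter (fun y => 2 ^ i * A.card ^ i ≤ 2 ^ a * s y) with hG
    have h1 : 2 ^ a * cnt A P = ∑ y ∈ G, 2 ^ a * s y +
        ∑ y ∈ A.filter (fun y => ¬ 2 ^ i * A.card ^ i ≤ 2 ^ a * s y), 2 ^ a * s y := by
      rw [hsum, Finset.mul_sum, hG, Finset.sum_filter_add_sum_filter_not]
    have h2 : ∑ y ∈ A.filter (fun y => ¬ 2 ^ i * A.card ^ i ≤ 2 ^ a * s y), 2 ^ a * s y ≤
        A.card * (2 ^ i * A.card ^ i) := by
      have h21 : ∑ y ∈ A.filter (fun y => ¬ 2 ^ i * A.card ^ i ≤ 2 ^ a * s y), 2 ^ a * s y ≤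
          ∑ y ∈ A.filter (fun y => ¬ 2 ^ i * A.card ^ i ≤ 2 ^ a * s y), 2 ^ i * A.card ^ i := by
        refine Finset.sum_le_sum ?_
        intro y hy
        have := (Finset.mem_filter.mp hy).2
        omega
      refine h21.trans ?_
      rw [Finset.sum_const, smul_eq_mul]
      exact Nat.mul_le_mul_right _ (Finset.card_filter_le _ _)
    have h3 : ∑ y ∈ G, 2 ^ a * s y ≤ 2 ^ a * (G.card * A.card ^ i) := by
      rw [← Finset.mul_sum]
      refine Nat.mul_le_mul_left _ ?_
      refine (Finset.sum_le_card_nsmul G s (A.card ^ i) (fun y _ => cnt_le A _)).trans ?_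
      rw [smul_eq_mul]
    have h4 : 2 ^ i * A.card ^ i * A.card ≤ 2 ^ a * (G.card * A.card ^ i) := by
      have h41 : 2 ^ (i + 1) * A.card ^ (i + 1) =
          2 ^ i * A.card ^ i * A.card + A.card * (2 ^ i * A.card ^ i) := by
        rw [pow_succ, pow_succ]
        ring
      rw [h41, h1] at h
      omega
    have h5 : A.card ≤ 2 ^ a * G.card := by
      have h51 : A.card ^ i * A.card ≤ A.card ^ i * (2 ^ a * G.card) := by
        calc A.card ^ i * A.card ≤ 2 ^ i * A.card ^ i * A.card := by
              refine Nat.mul_le_mul_right _ ?_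
              exact Nat.le_mul_of_pos_left _ (by positivity)
          _ ≤ 2 ^ a * (G.card * A.card ^ i) := h4
          _ = A.card ^ i * (2 ^ a * G.card) := by ring
      exact Nat.le_of_mul_le_mul_left h51 (by positivity)
    -- keys
    set K : Finset (Fin i → J → V) :=
      Fintype.piFinset (fun _ : Fin i => Fintype.piFinset (fun _ : J => A)) with hK
    have hKcard : K.card = A.card ^ (Fintype.card J * i) := by
      rw [hK, Fintype.card_piFinset]
      simp only [Fintype.card_piFinset, Finset.prod_const, Finset.card_univ,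
        Fintype.card_fin]
      rw [pow_mul]
    set Y : (Fin i → J → V) → Finset V := fun ω =>
      A.filter (fun y => ∀ c : Fin i → J, P (Fin.cons y (fun j => ω j (c j)))) with hY
    set Z : (Fin i → J → V) → Finset W := fun ω =>
      B.filter (fun t => ∀ j, Good (ω j) t) with hZ
    have h6 : ∑ y ∈ A, cntr (fun φ : Fin i → V => P (Fin.cons y φ)) Good A B =
        ∑ ω ∈ K, (Y ω).card * (Z ω).card := sum_cntr P Good A B
    have h7 : G.card * (A.card ^ (Fintype.card J * i) * B.card) ≤
        2 ^ (α i) * ∑ ω ∈ K, (Y ω).card * (Z ω).card := by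
      rw [← h6]
      calc G.card * (A.card ^ (Fintype.card J * i) * B.card)
          = ∑ y ∈ G, A.card ^ (Fintype.card J * i) * B.card := by
            rw [Finset.sum_const, smul_eq_mul]
        _ ≤ ∑ y ∈ G, 2 ^ (α i) * cntr (fun φ : Fin i → V => P (Fin.cons y φ)) Good A B := by
            refine Finset.sum_le_sum ?_
            intro y hy
            exact ih _ (fun j hj => hrob j (by omega)) (Finset.mem_filter.mp hy).2
        _ ≤ ∑ y ∈ A, 2 ^ (α i) * cntr (fun φ : Fin i → V => P (Fin.cons y φ)) Good A B := by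
            refine Finset.sum_le_sum_of_subset ?_
            exact Finset.filter_subset _ _
        _ = 2 ^ (α i) * ∑ y ∈ A, cntr (fun φ : Fin i → V => P (Fin.cons y φ)) Good A B := by
            rw [Finset.mul_sum]
    obtain ⟨hr1, hr2, hr3⟩ := hrob i (by omega)
    have h8 : K.card * A.card * B.card ≤
        2 ^ (a + α i) * ∑ ω ∈ K, (Y ω).card * (Z ω).card := by
      rw [hKcard]
      calc A.card ^ (Fintype.card J * i) * A.card * B.card
          ≤ A.card ^ (Fintype.card J * i) * (2 ^ a * G.card) * B.card := by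
            refine Nat.mul_le_mul_right _ ?_
            exact Nat.mul_le_mul_left _ h5
        _ = 2 ^ a * (G.card * (A.card ^ (Fintype.card J * i) * B.card)) := by ring
        _ ≤ 2 ^ a * (2 ^ (α i) * ∑ ω ∈ K, (Y ω).card * (Z ω).card) :=
            Nat.mul_le_mul_left _ h7
        _ = 2 ^ (a + α i) * ∑ ω ∈ K, (Y ω).card * (Z ω).card := by
            rw [pow_add, mul_assoc]
    have h9 := hone V W J (Fin i → J → V) K A B Y Z (a + α i) (p i) Good
      (fun k _ => ⟨Finset.filter_subset _ _, Finset.filter_subset _ _⟩) h8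
      (rob_mono Good hr1 hr3)
    rw [hKcard] at h9
    have h10 : ∑ ω ∈ K, gc Good (Y ω) (Z ω) ≤ cntr P Good A B := sum_gc_le P Good A B
    calc A.card ^ (Fintype.card J * (i + 1)) * B.card
        = A.card ^ (Fintype.card J * i) * A.card ^ Fintype.card J * B.card := by
          rw [mul_add, mul_one, pow_add]
      _ ≤ 2 ^ (Fintype.card J * (a + α i + 1) + p i) * ∑ ω ∈ K, gc Good (Y ω) (Z ω) := h9
      _ ≤ 2 ^ (α (i + 1)) * cntr P Good A B := by
          refine Nat.mul_le_mul (Nat.pow_le_pow_right (by norm_num) ?_) h10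
          refine le_trans ?_ hr2
          exact Nat.add_le_add_right (Nat.mul_le_mul_left _ hr1) _

theorem cnt_equiv {V I : Type} [Fintype I] {s : ℕ} (e : I ≃ Fin s) (A : Finset V)
    (P : (I → V) → Prop) : cnt A (fun φ : Fin s → V => P (fun x => φ (e x))) = cnt A P := by
  classical
  simp only [cnt_eq']
  refine Finset.card_bij (fun f _ => fun x => f (e x)) ?_ ?_ ?_
  · intro f hf
    rw [Finset.mem_filter, Fintype.mem_piFinset] at hf ⊢
    exact ⟨fun x => hf.1 (e x), hf.2⟩
  · intro f _ g _ hfg
    funext j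
    have := congrFun hfg (e.symm j)
    simpa using this
  · intro g hg
    rw [Finset.mem_filter, Fintype.mem_piFinset] at hg
    refine ⟨fun j => g (e.symm j), ?_, ?_⟩
    · rw [Finset.mem_filter, Fintype.mem_piFinset]
      refine ⟨fun j => hg.1 _, ?_⟩
      have h1 : (fun x => g (e.symm (e x))) = g := by
        funext x
        rw [Equiv.symm_apply_apply]
      rw [h1]
      exact hg.2
    · funext x
      show g (e.symm (e x)) = g x
      rw [Equiv.symm_apply_apply]

theorem cntr_equiv {V W I J : Type} [Fintype I] [Fintype J] {s : ℕ} (e : I ≃ Fin s)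
    (A : Finset V) (B : Finset W) (P : (I → V) → Prop) (Good : (J → V) → W → Prop) :
    cntr (fun φ : Fin s → V => P (fun x => φ (e x))) Good A B = cntr P Good A B := by
  classical
  simp only [cntr_eq']
  refine Finset.card_bij (fun f _ => ((fun x => f.1 (e x)), f.2)) ?_ ?_ ?_
  · rintro ⟨ω, t⟩ hf
    rw [Finset.mem_filter, Finset.mem_product, Fintype.mem_piFinset] at hf ⊢
    refine ⟨⟨fun x => hf.1.1 (e x), hf.1.2⟩, ?_, fun x => hf.2.2 (e x)⟩
    intro c
    have h1 := hf.2.1 (fun j => c (e.symm j))
    simpa using h1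
  · rintro ⟨ω, t⟩ _ ⟨ω', t'⟩ _ hfg
    rw [Prod.mk.injEq] at hfg
    obtain ⟨h1, h2⟩ := hfg
    have h3 : ω = ω' := by
      funext j
      have := congrFun h1 (e.symm j)
      simpa using this
    have h4 : t = t' := h2
    rw [h3, h4]
  · rintro ⟨ω, t⟩ hg
    rw [Finset.mem_filter, Finset.mem_product, Fintype.mem_piFinset] at hg
    refine ⟨((fun j => ω (e.symm j)), t), ?_, ?_⟩
    · rw [Finset.mem_filter, Finset.mem_product, Fintype.mem_piFinset]
      refine ⟨⟨fun j => hg.1.1 _, hg.1.2⟩, ?_, fun j => hg.2.2 _⟩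
      intro c
      have h1 := hg.2.1 (fun x => c (e x))
      have h2 : (fun x => ω (e.symm (e x)) (c (e x))) = (fun x => ω x (c (e x))) := by
        funext x
        rw [Equiv.symm_apply_apply]
      show P (fun x => ω (e.symm (e x)) (c (e x)))
      rw [h2]
      exact h1
    · have h2 : (fun x => ω (e.symm (e x))) = ω := by
        funext x
        rw [Equiv.symm_apply_apply]
      show ((fun x => ω (e.symm (e x))), t) = (ω, t)
      rw [h2]

end Pool.Agent.DXR.Step

namespace Pool.Agent.DXR

theorem STEP_thm : S_ONE → S_STEP := by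
  intro hone V W I J _ _ _ A B P Good a α β p h1 h2
  have e := Fintype.equivFin I
  have h3 := Step.step_fin hone A B Good a α β p (Fintype.card I)
    (fun φ => P (fun x => φ (e x))) h2 (by rw [Step.cnt_equiv e]; exact h1)
  rw [Step.cntr_equiv e] at h3
  exact h3

end Pool.Agent.DXR
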