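import Pool.Agent.DXR.Defs

/-!
Statements of the modules. Paper proof: `Pool/Agent/DXR/PAPER.md`.
-/

namespace Pool.Agent.DXR

open Finset

/-- A family of sets indexed by the leaves of a binary tree, without mutually sparse pairs
somewhere, or a blue clique. -/
def S_TREE : Prop := ∀ (V : Type) (rd : V → V → V → Prop) (L : ℕ), IsRed rd → NoBlue rd L →
  ∀ (U : Finset V) (C P : ℕ), 3 * L * C + 3 * L + 2 ≤ P → 2 ^ (L * C + 2 * L + 1) ≤ U.card →
    ∃ U' : Finset V, Big (L * C) U' U ∧ ¬ Mut rd C P U'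

/-- Supersaturation. -/
def S_SUPER : Prop := ∀ (V I : Type) [Fintype I] (rd : V → V → V → Prop) (E : I → I → I → Prop)
  (R : ℕ), Thr rd E R → ∀ A : Finset V, R ≤ A.card →
    A.card ^ Fintype.card I ≤ R ^ Fintype.card I * cnt A (IsCopy rd E)

/-- One step of the doubling argument. -/
def S_ONE : Prop := ∀ (V W J κ : Type) [Fintype J] [Nonempty J] (K : Finset κ) (A : Finset V)
  (B : Finset W) (Y : κ → Finset V) (Z : κ → Finset W) (b p : ℕ) (Good : (J → V) → W → Prop),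
    (∀ k ∈ K, Y k ⊆ A ∧ Z k ⊆ B) →
    K.card * A.card * B.card ≤ 2 ^ b * ∑ k ∈ K, (Y k).card * (Z k).card →
    Rob Good (b + 1) p A B →
    K.card * A.card ^ Fintype.card J * B.card ≤
      2 ^ (Fintype.card J * (b + 1) + p) * ∑ k ∈ K, gc Good (Y k) (Z k)

/-- All coordinates. -/
def S_STEP : Prop := ∀ (V W I J : Type) [Fintype I] [Fintype J] [Nonempty J] (A : Finset V)
  (B : Finset W) (P : (I → V) → Prop) (Good : (J → V) → W → Prop) (a : ℕ) (α β p : ℕ → ℕ),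
    2 ^ Fintype.card I * A.card ^ Fintype.card I ≤ 2 ^ a * cnt A P →
    (∀ i < Fintype.card I, a + α i + 1 ≤ β i ∧ Fintype.card J * β i + p i ≤ α (i + 1) ∧
      Rob Good (β i) (p i) A B) →
    A.card ^ (Fintype.card J * Fintype.card I) * B.card ≤
      2 ^ (α (Fintype.card I)) * cntr P Good A B

/-- The lexicographic product. -/
def S_SUB : Prop := ∀ s r : ℕ, ∃ K : ℕ, ∀ (V I J : Type) [Fintype I] [Fintype J]
  (rd : V → V → V → Prop) (E : I → I → I → Prop) (G : J → J → J → Prop) (τ : ℕ),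
    IsRed rd → Fintype.card I = s → Fintype.card J = r → Thr rd E (2 ^ τ) → Thr rd G (2 ^ τ) →
      Thr rd (LE E G) (2 ^ (K * (τ + 1)))

/-- The doubling operation. -/
def S_DBL : Prop := ∀ s : ℕ, ∃ K : ℕ, ∀ (V I : Type) [Fintype I] (rd : V → V → V → Prop)
  (E : I → I → I → Prop) (L τ : ℕ), IsRed rd → 1 ≤ L → NoBlue rd L → Fintype.card I = s →
    Thr rd E (2 ^ τ) → Thr rd (DE E) (2 ^ (K * L ^ K * (τ + 1)))

/-- A 3-graph with vertices labelled by nonzero vectors over the field with two elements. -/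
def S_PG : Prop := ∀ (k d : ℕ) (E : Fin k → Fin k → Fin k → Prop) (a : Fin k → Fin d → ZMod 2),
  (∀ x, a x ≠ 0) → (∀ x y z, E x y z → a x + a y + a z = 0) →
    ∃ K : ℕ, ∀ (V : Type) (rd : V → V → V → Prop) (L : ℕ), IsRed rd → 1 ≤ L → NoBlue rd L →
      Thr rd E (2 ^ (K * L ^ K))

/-- The quotient of a linear 3-graph by a maximal matching. -/
def S_QUOT : Prop := ∀ (s : ℕ) (F : Finset (Finset (Fin s))), 2 ≤ s → (∀ e ∈ F, e.card = 3) →
  (∀ e ∈ F, ∀ f ∈ F, e ≠ f → (e ∩ f).card ≤ 1) →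
    ∃ (F₁ : Finset (Finset (Fin s))) (A : Finset (Fin s)) (q : Fin s → Fin s)
      (π : Fin s → Fin 3),
      (∀ e ∈ F₁, e.card = 3) ∧ (∀ e ∈ F₁, ¬ Disjoint e A) ∧ 3 * (A.card + 1) ≤ s + 1 ∧
      Function.Injective (fun x => (q x, π x)) ∧
      ∀ e ∈ F, e.image q ∈ F₁ ∨ ((∀ x ∈ e, ∀ y ∈ e, q x = q y) ∧ Set.InjOn π e)

end Pool.Agent.DXR
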