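import Pool.Agent.DXR.Stmts

/-!
The lexicographic product.
-/

namespace Pool.Agent.DXR

open Finset

namespace Sub

/-- The exponents of the steps. -/
def al (s r τ : ℕ) : ℕ → ℕ
  | 0 => 0
  | i + 1 => r * (s * (τ + 1) + al s r τ i + 1) + r * τ

/-- The constants in the bounds of the exponents. -/
def kk (s r : ℕ) : ℕ → ℕ
  | 0 => 0
  | i + 1 => r * (s + kk s r i + 2)

theorem al_le (s r τ i : ℕ) : al s r τ i ≤ kk s r i * (τ + 1) := by
  induction i with
  | zero => simp [al]
  | succ i ih =>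
    rw [al, kk]
    calc r * (s * (τ + 1) + al s r τ i + 1) + r * τ = r * (s * (τ + 1) + al s r τ i + 1 + τ) := by
          ring
      _ ≤ r * ((s + kk s r i + 2) * (τ + 1)) := Nat.mul_le_mul_left _ (by nlinarith)
      _ = r * (s + kk s r i + 2) * (τ + 1) := by ring

theorem kk_mono {s r : ℕ} (hr : 1 ≤ r) : Monotone (kk s r) := by
  refine monotone_nat_of_le_succ fun i => ?_
  rw [kk]
  calc kk s r i ≤ s + kk s r i + 2 := by omega
    _ = 1 * (s + kk s r i + 2) := by ring
    _ ≤ r * (s + kk s r i + 2) := Nat.mul_le_mul_right _ hr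

section

variable {V : Type} {rd : V → V → V → Prop}

theorem ne13 (h : IsRed rd) {x y z : V} (hr : rd x y z) : x ≠ z := h.ne12 _ _ _ (h.swap23 _ _ _ hr)

theorem ne23 (h : IsRed rd) {x y z : V} (hr : rd x y z) : y ≠ z :=
  ne13 h (h.swap12 _ _ _ hr)

/-- The copies of `G` in `Y` are the good pairs. -/
theorem cnt_le_gc {J : Type} [Fintype J] (G : J → J → J → Prop) (Y : Finset V) (Z : Finset Unit)
    (hZ : () ∈ Z) :
    cnt Y (IsCopy rd G) ≤ gc (fun (κ : J → V) (_ : Unit) => IsCopy rd G κ) Y Z := by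
  classical
  unfold cnt gc
  refine Finset.card_le_card_of_injOn (fun κ => (κ, ())) ?_ ?_
  · intro κ hκ
    rw [Finset.mem_coe, Finset.mem_filter] at hκ
    rw [Finset.mem_coe, Finset.mem_filter, Finset.mem_product]
    exact ⟨⟨hκ.1, hZ⟩, hκ.2⟩
  · intro κ _ κ' _ h
    exact (Prod.mk.inj h).1

/-- A family all of whose mixtures are copies of `E` and all of whose members are copies of `G` is
a copy of the product. -/
theorem copy_prod {I J : Type} [Nonempty J] (h : IsRed rd) (E : I → I → I → Prop)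
    (G : J → J → J → Prop) (ω : I → J → V)
    (h1 : ∀ c : I → J, IsCopy rd E (fun i => ω i (c i))) (h2 : ∀ i, IsCopy rd G (ω i)) :
    IsCopy rd (LE E G) (fun q => ω q.1 q.2) := by
  classical
  constructor
  · rintro ⟨i₁, j₁⟩ ⟨i₂, j₂⟩ he
    change ω i₁ j₁ = ω i₂ j₂ at he
    by_cases hi : i₁ = i₂
    · subst hi
      rw [(h2 i₁).1 he]
    · exfalso
      have h3 := (h1 (Function.update (fun _ => j₂) i₁ j₁)).1 (a₁ := i₁) (a₂ := i₂) (by
        change ω i₁ (Function.update (fun _ => j₂) i₁ j₁ i₁) =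
          ω i₂ (Function.update (fun _ => j₂) i₁ j₁ i₂)
        rw [Function.update_self, Function.update_of_ne (Ne.symm hi)]
        exact he)
      exact hi h3
  · rintro ⟨a₁, a₂⟩ ⟨b₁, b₂⟩ ⟨c₁, c₂⟩ (hE | ⟨hab, hbc, hG⟩)
    · change rd (ω a₁ a₂) (ω b₁ b₂) (ω c₁ c₂)
      change E a₁ b₁ c₁ at hE
      obtain ⟨j₀⟩ := ‹Nonempty J›
      have h0 : rd (ω a₁ j₀) (ω b₁ j₀) (ω c₁ j₀) := (h1 fun _ => j₀).2 a₁ b₁ c₁ hE
      have hab : a₁ ≠ b₁ := fun e => h.ne12 _ _ _ h0 (by rw [e])
      have hac : a₁ ≠ c₁ := fun e => ne13 h h0 (by rw [e])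
      have hbc : b₁ ≠ c₁ := fun e => ne23 h h0 (by rw [e])
      have h3 := (h1 (Function.update (Function.update (fun _ => c₂) b₁ b₂) a₁ a₂)).2 a₁ b₁ c₁ hE
      change rd (ω a₁ (Function.update (Function.update (fun _ => c₂) b₁ b₂) a₁ a₂ a₁))
        (ω b₁ (Function.update (Function.update (fun _ => c₂) b₁ b₂) a₁ a₂ b₁))
        (ω c₁ (Function.update (Function.update (fun _ => c₂) b₁ b₂) a₁ a₂ c₁)) at h3
      rw [Function.update_self, Function.update_of_ne (Ne.symm hab), Function.update_self,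
        Function.update_of_ne (Ne.symm hac), Function.update_of_ne (Ne.symm hbc)] at h3
      exact h3
    · change rd (ω a₁ a₂) (ω b₁ b₂) (ω c₁ c₂)
      change a₁ = b₁ at hab
      change b₁ = c₁ at hbc
      subst hab
      subst hbc
      exact (h2 a₁).2 _ _ _ hG

end

end Sub

theorem SUB_thm : S_SUPER → S_STEP → S_SUB := by
  intro hS hT s r
  classical
  refine ⟨s + 2 + Sub.kk s r s, ?_⟩
  intro V I J _ _ rd E G τ hrd hI hJ hE hG A hA
  rcases Nat.eq_zero_or_pos r with hr | hr
  · -- no vertices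
    have hJe : IsEmpty J := Fintype.card_eq_zero_iff.1 (hJ.trans hr)
    exact ⟨fun q => hJe.elim q.2, fun q => hJe.elim q.2, fun q => hJe.elim q.2,
      fun q => hJe.elim q.2⟩
  · have hJn : Nonempty J := Fintype.card_pos_iff.1 (by rw [hJ]; exact hr)
    have hmono := Sub.kk_mono (s := s) hr
    have hAτ : 2 ^ τ ≤ A.card := by
      refine le_trans (Nat.pow_le_pow_right (by norm_num) ?_) hA
      nlinarith [Nat.zero_le (Sub.kk s r s), Nat.zero_le s]
    have hApos : 0 < A.card := lt_of_lt_of_le (by positivity) hAτ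
    -- supersaturation for `E`
    have h1 := hS V I rd E (2 ^ τ) hE A hAτ
    rw [hI] at h1
    have h2 : 2 ^ Fintype.card I * A.card ^ Fintype.card I ≤
        2 ^ (s * (τ + 1)) * cnt A (IsCopy rd E) := by
      rw [hI]
      calc 2 ^ s * A.card ^ s ≤ 2 ^ s * ((2 ^ τ) ^ s * cnt A (IsCopy rd E)) :=
            Nat.mul_le_mul_left _ h1
        _ = 2 ^ (s * (τ + 1)) * cnt A (IsCopy rd E) := by
            rw [← mul_assoc, ← pow_mul, ← pow_add]
            congr 2
            ring
    -- robustness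
    have h3 : ∀ i < Fintype.card I,
        s * (τ + 1) + Sub.al s r τ i + 1 ≤ s * (τ + 1) + Sub.al s r τ i + 1 ∧
        Fintype.card J * (s * (τ + 1) + Sub.al s r τ i + 1) + r * τ ≤ Sub.al s r τ (i + 1) ∧
        Rob (fun (κ : J → V) (_ : Unit) => IsCopy rd G κ) (s * (τ + 1) + Sub.al s r τ i + 1)
          (r * τ) A (Finset.univ : Finset Unit) := by
      intro i hi
      rw [hI] at hi
      refine ⟨le_rfl, ?_, ?_⟩
      · rw [hJ, Sub.al]
      · intro Y Z hY hZ
        have hZn : Z.Nonempty := by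
          rw [← Finset.card_pos]
          rcases Nat.eq_zero_or_pos Z.card with h0 | h0
          · exfalso
            have := hZ.2
            rw [h0, mul_zero] at this
            simp at this
          · exact h0
        have hZ0 : () ∈ Z := by
          obtain ⟨u, hu⟩ := hZn
          exact hu
        have hZc : Z.card ≤ 1 := (Finset.card_le_card hZ.1).trans (by simp)
        have hY2 : 2 ^ τ ≤ Y.card := by
          have h4 : s * (τ + 1) + Sub.al s r τ i + 1 + τ ≤ (s + 2 + Sub.kk s r s) * (τ + 1) := by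
            have e1 := Sub.al_le s r τ i
            have e2 : Sub.kk s r i * (τ + 1) ≤ Sub.kk s r s * (τ + 1) :=
              Nat.mul_le_mul_right _ (hmono hi.le)
            nlinarith
          have h5 : 2 ^ (s * (τ + 1) + Sub.al s r τ i + 1 + τ) ≤
              2 ^ (s * (τ + 1) + Sub.al s r τ i + 1) * Y.card :=
            (Nat.pow_le_pow_right (by norm_num) h4).trans (hA.trans hY.2)
          rw [pow_add _ _ τ] at h5
          exact Nat.le_of_mul_le_mul_left h5 (by positivity)
        have h6 := hS V J rd G (2 ^ τ) hG Y hY2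
        calc Y.card ^ Fintype.card J * Z.card ≤ Y.card ^ Fintype.card J * 1 :=
              Nat.mul_le_mul_left _ hZc
          _ = Y.card ^ Fintype.card J := mul_one _
          _ ≤ (2 ^ τ) ^ Fintype.card J * cnt Y (IsCopy rd G) := h6
          _ = 2 ^ (r * τ) * cnt Y (IsCopy rd G) := by
              rw [hJ, ← pow_mul, Nat.mul_comm τ r]
          _ ≤ 2 ^ (r * τ) * gc (fun (κ : J → V) (_ : Unit) => IsCopy rd G κ) Y Z :=
              Nat.mul_le_mul_left _ (Sub.cnt_le_gc G Y Z hZ0)
    have h4 := hT V Unit I J A (Finset.univ : Finset Unit) (IsCopy rd E)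
      (fun (κ : J → V) (_ : Unit) => IsCopy rd G κ) (s * (τ + 1)) (Sub.al s r τ)
      (fun i => s * (τ + 1) + Sub.al s r τ i + 1) (fun _ => r * τ) h2 h3
    have h5 : 0 < cntr (IsCopy rd E) (fun (κ : J → V) (_ : Unit) => IsCopy rd G κ) A
        (Finset.univ : Finset Unit) := by
      rcases Nat.eq_zero_or_pos (cntr (IsCopy rd E)
        (fun (κ : J → V) (_ : Unit) => IsCopy rd G κ) A (Finset.univ : Finset Unit)) with h0 | h0
      · exfalso
        rw [h0, mul_zero] at h4
        have : 0 < A.card ^ (Fintype.card J * Fintype.card I) *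
            (Finset.univ : Finset Unit).card := by
          simp only [Finset.card_univ, Fintype.card_unit, mul_one]
          positivity
        omega
      · exact h0
    unfold cntr at h5
    obtain ⟨⟨ω, u⟩, hω⟩ := Finset.card_pos.1 h5
    rw [Finset.mem_filter, Finset.mem_product] at hω
    obtain ⟨⟨hω1, -⟩, hω2, hω3⟩ := hω
    refine ⟨fun q => ω q.1 q.2, fun q => ?_, Sub.copy_prod hrd E G ω hω2 hω3⟩
    exact Fintype.mem_piFinset.1 (Fintype.mem_piFinset.1 hω1 q.1) q.2

end Pool.Agent.DXR
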