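import Pool.Agent.DXR.Stmts

/-!
# SUPER: supersaturation
-/

namespace Pool.Agent.DXR

open Finset

namespace Super

theorem bern (a s : ℕ) (h : s ≤ a) : a ^ s * (a - s) ≤ a * (a - 1) ^ s := by
  induction s with
  | zero => simp
  | succ s ih =>
    have ih := ih (by omega)
    obtain ⟨b, rfl⟩ : ∃ b, a = s + 1 + b := ⟨a - (s + 1), by omega⟩
    have h1 : s + 1 + b - s = b + 1 := by omega
    have h2 : s + 1 + b - (s + 1) = b := by omega
    have h3 : s + 1 + b - 1 = s + b := by omega
    rw [h1, h3] at ih
    rw [h2, h3]
    calc (s + 1 + b) ^ (s + 1) * b = (s + 1 + b) ^ s * ((s + 1 + b) * b) := by ring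
      _ ≤ (s + 1 + b) ^ s * ((b + 1) * (s + b)) := Nat.mul_le_mul_left _ (by nlinarith)
      _ = ((s + 1 + b) ^ s * (b + 1)) * (s + b) := by ring
      _ ≤ ((s + 1 + b) * (s + b) ^ s) * (s + b) := Nat.mul_le_mul_right _ ih
      _ = _ := by ring

open Classical in
theorem dc {V I : Type} [Fintype I] (A : Finset V) (P : (I → V) → Prop)
    (hP : ∀ φ, P φ → Function.Injective φ) :
    ∑ x ∈ A, cnt (A.erase x) P = (A.card - Fintype.card I) * cnt A P := by
  unfold cnt
  simp only [card_eq_sum_ones]
  rw [Finset.sum_comm' (t' := (Fintype.piFinset (fun _ : I => A)).filter P)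
    (s' := fun φ => A \ univ.image φ)]
  · simp only [← card_eq_sum_ones]
    rw [Finset.sum_congr rfl (g := fun _ => A.card - Fintype.card I)]
    · rw [Finset.sum_const, smul_eq_mul, mul_comm]
    · intro φ hφ
      rw [mem_filter, Fintype.mem_piFinset] at hφ
      rw [card_sdiff_of_subset, card_image_of_injective _ (hP φ hφ.2), card_univ]
      intro x hx
      obtain ⟨i, _, rfl⟩ := mem_image.1 hx
      exact hφ.1 i
  · intro x φ
    simp only [mem_filter, Fintype.mem_piFinset, mem_erase, mem_sdiff, mem_image, mem_univ,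
      true_and, not_exists]
    constructor
    · rintro ⟨hx, h, hp⟩
      exact ⟨⟨hx, fun i => (h i).1⟩, fun i => (h i).2, hp⟩
    · rintro ⟨⟨hx, h⟩, h2, hp⟩
      exact ⟨hx, fun i => ⟨h i, h2 i⟩, hp⟩

end Super

theorem SUPER_thm : S_SUPER := by
  classical
  intro V I _ rd E R hT
  have key : ∀ n : ℕ, ∀ A : Finset V, A.card = R + n →
      A.card ^ Fintype.card I ≤ R ^ Fintype.card I * cnt A (IsCopy rd E) := by
    intro n
    induction n with
    | zero =>
      intro A hA
      rw [add_zero] at hA
      obtain ⟨φ, h1, h2⟩ := hT A hA.ge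
      have h3 : 1 ≤ cnt A (IsCopy rd E) := by
        unfold cnt
        rw [Nat.one_le_iff_ne_zero, ← Nat.pos_iff_ne_zero, card_pos]
        exact ⟨φ, by rw [mem_filter, Fintype.mem_piFinset]; exact ⟨h1, h2⟩⟩
      rw [hA]
      exact Nat.le_mul_of_pos_right _ h3
    | succ n ih =>
      intro A hA
      have hs : Fintype.card I < A.card := by
        obtain ⟨S, hS, hc⟩ := exists_subset_card_eq (s := A) (n := R + n) (by omega)
        obtain ⟨φ, h1, h2⟩ := hT S (by omega)
        have h3 : (univ.image φ).card = Fintype.card I := by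
          rw [card_image_of_injective _ h2.1, card_univ]
        have h4 : (univ.image φ).card ≤ S.card := by
          apply card_le_card
          intro x hx
          obtain ⟨i, _, rfl⟩ := mem_image.1 hx
          exact h1 i
        omega
      have h1 : ∑ x ∈ A, (A.card - 1) ^ Fintype.card I ≤
          ∑ x ∈ A, R ^ Fintype.card I * cnt (A.erase x) (IsCopy rd E) := by
        apply sum_le_sum
        intro x hx
        have h2 := ih (A.erase x) (by rw [card_erase_of_mem hx]; omega)
        rwa [card_erase_of_mem hx] at h2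
      rw [← mul_sum, Super.dc A (IsCopy rd E) (fun φ h => h.1), sum_const, smul_eq_mul] at h1
      have h2 := Super.bern A.card (Fintype.card I) hs.le
      have h3 : (A.card - Fintype.card I) * A.card ^ Fintype.card I ≤
          (A.card - Fintype.card I) * (R ^ Fintype.card I * cnt A (IsCopy rd E)) := by
        calc (A.card - Fintype.card I) * A.card ^ Fintype.card I
            = A.card ^ Fintype.card I * (A.card - Fintype.card I) := by ring
          _ ≤ _ := h2
          _ ≤ _ := h1
          _ = _ := by ring
      exact Nat.le_of_mul_le_mul_left h3 (by omega)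
  intro A hA
  exact key (A.card - R) A (by omega)

end Pool.Agent.DXR
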