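import Pool.Agent.DXR.Stmts

/-!
The binary tree of mutually sparse pairs and the union bound.
-/

set_option autoImplicit false

namespace Pool.Agent.DXR

open Finset

namespace Tree

open Classical

variable {V : Type} {rd : V → V → V → Prop}

theorem ec_swap12 (h : IsRed rd) (A B C : Finset V) : ec rd A B C ≤ ec rd B A C := by
  unfold ec
  refine Finset.card_le_card_of_injOn (fun q => (q.2.1, q.1, q.2.2)) ?_ ?_
  · intro q hq
    have hq' := Finset.mem_coe.1 hq
    rw [Finset.mem_filter, Finset.mem_product, Finset.mem_product] at hq'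
    refine Finset.mem_coe.2 ?_
    rw [Finset.mem_filter, Finset.mem_product, Finset.mem_product]
    exact ⟨⟨hq'.1.2.1, hq'.1.1, hq'.1.2.2⟩, h.swap12 _ _ _ hq'.2⟩
  · rintro ⟨a, b, c⟩ _ ⟨a', b', c'⟩ _ he
    simp only [Prod.mk.injEq] at he ⊢
    exact ⟨he.2.1, he.1, he.2.2⟩

theorem ec_swap23 (h : IsRed rd) (A B C : Finset V) : ec rd A B C ≤ ec rd A C B := by
  unfold ec
  refine Finset.card_le_card_of_injOn (fun q => (q.1, q.2.2, q.2.1)) ?_ ?_
  · intro q hq
    have hq' := Finset.mem_coe.1 hq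
    rw [Finset.mem_filter, Finset.mem_product, Finset.mem_product] at hq'
    refine Finset.mem_coe.2 ?_
    rw [Finset.mem_filter, Finset.mem_product, Finset.mem_product]
    exact ⟨⟨hq'.1.1, hq'.1.2.2, hq'.1.2.1⟩, h.swap23 _ _ _ hq'.2⟩
  · rintro ⟨a, b, c⟩ _ ⟨a', b', c'⟩ _ he
    simp only [Prod.mk.injEq] at he ⊢
    exact ⟨he.1, he.2.2, he.2.1⟩

theorem ec_mono {A A' B B' C C' : Finset V} (hA : A' ⊆ A) (hB : B' ⊆ B) (hC : C' ⊆ C) :
    ec rd A' B' C' ≤ ec rd A B C := by
  unfold ec
  refine Finset.card_le_card fun q hq => ?_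
  rw [Finset.mem_filter, Finset.mem_product, Finset.mem_product] at hq ⊢
  exact ⟨⟨hA hq.1.1, hB hq.1.2.1, hC hq.1.2.2⟩, hq.2⟩

theorem sub_box {p c : ℕ} {A A' B B' C C' : Finset V} (h : Sp rd p A B C) (hA : Big c A' A)
    (hB : Big c B' B) (hC : Big c C' C) :
    2 ^ p * ec rd A' B' C' ≤ 2 ^ (3 * c) * (A'.card * B'.card * C'.card) := by
  calc 2 ^ p * ec rd A' B' C' ≤ 2 ^ p * ec rd A B C :=
        Nat.mul_le_mul_left _ (ec_mono hA.1 hB.1 hC.1)
    _ ≤ A.card * B.card * C.card := h
    _ ≤ (2 ^ c * A'.card) * (2 ^ c * B'.card) * (2 ^ c * C'.card) :=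
        Nat.mul_le_mul (Nat.mul_le_mul hA.2 hB.2) hC.2
    _ = 2 ^ (3 * c) * (A'.card * B'.card * C'.card) := by
        rw [show 3 * c = c + c + c by ring, pow_add, pow_add]
        ring

theorem big_trans {c d : ℕ} {A B C : Finset V} (h : Big c A B) (h' : Big d B C) :
    Big (c + d) A C := by
  refine ⟨h.1.trans h'.1, ?_⟩
  calc C.card ≤ 2 ^ d * B.card := h'.2
    _ ≤ 2 ^ d * (2 ^ c * A.card) := Nat.mul_le_mul_left _ h.2
    _ = 2 ^ (c + d) * A.card := by rw [pow_add]; ring

/-- The pair bound: two sets in `X`, one in `Y`, in every order. -/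
theorem mixed (hr : IsRed rd) {p c : ℕ} {X Y A B C : Finset V} (h : Sp rd p X X Y)
    (hA : Big c A X) (hB : Big c B X) (hC : Big c C Y) :
    2 ^ p * ec rd A B C ≤ 2 ^ (3 * c) * (A.card * B.card * C.card) ∧
      2 ^ p * ec rd A C B ≤ 2 ^ (3 * c) * (A.card * C.card * B.card) ∧
      2 ^ p * ec rd C A B ≤ 2 ^ (3 * c) * (C.card * A.card * B.card) := by
  have h1 := sub_box h hA hB hC
  have h2 : ec rd A C B ≤ ec rd A B C := ec_swap23 hr _ _ _
  have h3 : ec rd C A B ≤ ec rd A C B := ec_swap12 hr _ _ _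
  refine ⟨h1, ?_, ?_⟩
  · calc 2 ^ p * ec rd A C B ≤ 2 ^ p * ec rd A B C := Nat.mul_le_mul_left _ h2
      _ ≤ 2 ^ (3 * c) * (A.card * B.card * C.card) := h1
      _ = 2 ^ (3 * c) * (A.card * C.card * B.card) := by ring
  · calc 2 ^ p * ec rd C A B ≤ 2 ^ p * ec rd A B C := Nat.mul_le_mul_left _ (h3.trans h2)
      _ ≤ 2 ^ (3 * c) * (A.card * B.card * C.card) := h1
      _ = 2 ^ (3 * c) * (C.card * A.card * B.card) := by ring

/-- The leaves of the tree. -/
theorem leaves (hr : IsRed rd) (C P l : ℕ) : ∀ W : Finset V,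
    (∀ W' : Finset V, Big (l * C) W' W → Mut rd C P W') →
    ∃ u : Fin (2 ^ l) → Finset V, (∀ i, Big (l * C) (u i) W) ∧
      ∀ i j k, i ≠ j → i ≠ k → j ≠ k → 2 ^ P * ec rd (u i) (u j) (u k) ≤
        2 ^ (3 * (l * C)) * ((u i).card * (u j).card * (u k).card) := by
  induction l with
  | zero =>
    intro W _
    refine ⟨fun _ => W, fun _ => ⟨Finset.Subset.refl _, ?_⟩, fun i j k hij => ?_⟩
    · simp
    · exfalso
      apply hij
      apply Fin.ext
      have hi : i.val < 1 := i.isLt
      have hj : j.val < 1 := j.isLt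
      omega
  | succ l ih =>
    intro W hW
    obtain ⟨X, Y, hX, hY, hXXY, hXYY⟩ := hW W ⟨Finset.Subset.refl _, by
      calc W.card = 1 * W.card := (one_mul _).symm
        _ ≤ 2 ^ ((l + 1) * C) * W.card := Nat.mul_le_mul_right _ Nat.one_le_two_pow⟩
    have hle : l * C + C = (l + 1) * C := by ring
    obtain ⟨a, ha, ha'⟩ := ih X fun W' hW' => hW W' (by
      have := big_trans hW' hX
      rwa [hle] at this)
    obtain ⟨b, hb, hb'⟩ := ih Y fun W' hW' => hW W' (by
      have := big_trans hW' hY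
      rwa [hle] at this)
    have hcard : Fintype.card (Fin (2 ^ (l + 1))) = Fintype.card (Fin (2 ^ l) ⊕ Fin (2 ^ l)) := by
      rw [Fintype.card_fin, Fintype.card_sum, Fintype.card_fin, pow_succ]
      ring
    let e : Fin (2 ^ (l + 1)) ≃ Fin (2 ^ l) ⊕ Fin (2 ^ l) := Fintype.equivOfCardEq hcard
    have hup : ∀ m : ℕ, 2 ^ (3 * (l * C)) * m ≤ 2 ^ (3 * ((l + 1) * C)) * m := by
      intro m
      refine Nat.mul_le_mul_right _ (Nat.pow_le_pow_right (by norm_num) ?_)
      rw [← hle]
      omega
    -- the statement for the sum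
    have key : ∀ i j k : Fin (2 ^ l) ⊕ Fin (2 ^ l), i ≠ j → i ≠ k → j ≠ k →
        2 ^ P * ec rd (Sum.elim a b i) (Sum.elim a b j) (Sum.elim a b k) ≤
        2 ^ (3 * (l * C)) * ((Sum.elim a b i).card * (Sum.elim a b j).card *
          (Sum.elim a b k).card) := by
      have hYYX : Sp rd P Y Y X := by
        have h1 : ec rd Y Y X ≤ ec rd X Y Y :=
          (ec_swap23 hr Y Y X).trans (ec_swap12 hr Y X Y)
        calc 2 ^ P * ec rd Y Y X ≤ 2 ^ P * ec rd X Y Y := Nat.mul_le_mul_left _ h1
          _ ≤ X.card * Y.card * Y.card := hXYY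
          _ = Y.card * Y.card * X.card := by ring
      intro i j k hij hik hjk
      rcases i with i | i <;> rcases j with j | j <;> rcases k with k | k
      · exact ha' i j k (fun h => hij (h ▸ rfl)) (fun h => hik (h ▸ rfl)) (fun h => hjk (h ▸ rfl))
      · exact (mixed hr hXXY (ha i) (ha j) (hb k)).1
      · exact (mixed hr hXXY (ha i) (ha k) (hb j)).2.1
      · exact (mixed hr hYYX (hb j) (hb k) (ha i)).2.2
      · exact (mixed hr hXXY (ha j) (ha k) (hb i)).2.2
      · exact (mixed hr hYYX (hb i) (hb k) (ha j)).2.1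
      · exact (mixed hr hYYX (hb i) (hb j) (ha k)).1
      · exact hb' i j k (fun h => hij (h ▸ rfl)) (fun h => hik (h ▸ rfl)) (fun h => hjk (h ▸ rfl))
    refine ⟨fun i => Sum.elim a b (e i), fun i => ?_, fun i j k hij hik hjk => ?_⟩
    · change Big ((l + 1) * C) (Sum.elim a b (e i)) W
      rw [← hle]
      rcases e i with i' | i'
      · exact big_trans (ha i') hX
      · exact big_trans (hb i') hY
    · exact (key (e i) (e j) (e k) (fun h => hij (e.injective h)) (fun h => hik (e.injective h))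
        (fun h => hjk (e.injective h))).trans (hup _)

/-! ### The union bound -/

variable {ι : Type} [Fintype ι]

theorem card_eq_pair (u : ι → Finset V) {i j : ι} (hij : i ≠ j) :
    ((Fintype.piFinset u).filter (fun f => f i = f j)).card * (u i).card ≤
      (Fintype.piFinset u).card := by
  rw [← Finset.card_product]
  refine Finset.card_le_card_of_injOn (fun q => Function.update q.1 i q.2) ?_ ?_
  · intro q hq
    have hq' := Finset.mem_coe.1 hq
    rw [Finset.mem_product, Finset.mem_filter, Fintype.mem_piFinset] at hq'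
    refine Finset.mem_coe.2 ?_
    rw [Fintype.mem_piFinset]
    intro m
    by_cases hm : m = i
    · subst hm
      simp only [Function.update_self]
      exact hq'.2
    · simp only [Function.update_of_ne hm]
      exact hq'.1.1 m
  · rintro ⟨f, x⟩ hf ⟨g, y⟩ hg he
    have hf' := Finset.mem_coe.1 hf
    have hg' := Finset.mem_coe.1 hg
    rw [Finset.mem_product, Finset.mem_filter] at hf' hg'
    have e1 : x = y := by
      have := congrFun he i
      simpa using this
    have e2 : ∀ m, m ≠ i → f m = g m := by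
      intro m hm
      have := congrFun he m
      simpa [Function.update_of_ne hm] using this
    have e3 : f i = g i := by
      have h1 : f i = f j := hf'.1.2
      have h2 : g i = g j := hg'.1.2
      rw [h1, h2, e2 j hij.symm]
    have e4 : f = g := by
      funext m
      by_cases hm : m = i
      · rw [hm, e3]
      · exact e2 m hm
    rw [e1, e4]

theorem card_eq_triple (u : ι → Finset V) {i j k : ι} (hij : i ≠ j) (hik : i ≠ k)
    (hjk : j ≠ k) :
    ((Fintype.piFinset u).filter (fun f => rd (f i) (f j) (f k))).card *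
      ((u i).card * (u j).card * (u k).card) ≤
      ec rd (u i) (u j) (u k) * (Fintype.piFinset u).card := by
  have hprod : (u i).card * (u j).card * (u k).card = (u i ×ˢ u j ×ˢ u k).card := by
    rw [Finset.card_product, Finset.card_product]
    ring
  unfold ec
  rw [hprod, ← Finset.card_product, ← Finset.card_product]
  refine Finset.card_le_card_of_injOn (fun q => ((q.1 i, q.1 j, q.1 k),
    Function.update (Function.update (Function.update q.1 i q.2.1) j q.2.2.1) k q.2.2.2)) ?_ ?_
  · intro q hq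
    have hq' := Finset.mem_coe.1 hq
    rw [Finset.mem_product, Finset.mem_filter, Fintype.mem_piFinset, Finset.mem_product,
      Finset.mem_product] at hq'
    obtain ⟨⟨h1, h2⟩, h3, h4, h5⟩ := hq'
    refine Finset.mem_coe.2 ?_
    rw [Finset.mem_product, Finset.mem_filter, Fintype.mem_piFinset, Finset.mem_product,
      Finset.mem_product]
    refine ⟨⟨⟨h1 i, h1 j, h1 k⟩, h2⟩, fun m => ?_⟩
    by_cases hk : m = k
    · subst hk
      simp only [Function.update_self]
      exact h5
    by_cases hj : m = j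
    · subst hj
      simp only [Function.update_of_ne hk, Function.update_self]
      exact h4
    by_cases hi : m = i
    · subst hi
      simp only [Function.update_of_ne hk, Function.update_of_ne hj, Function.update_self]
      exact h3
    · simp only [Function.update_of_ne hk, Function.update_of_ne hj, Function.update_of_ne hi]
      exact h1 m
  · rintro ⟨f, x, y, z⟩ _ ⟨g, x', y', z'⟩ _ he
    simp only [Prod.mk.injEq] at he
    obtain ⟨⟨h1, h2, h3⟩, h4⟩ := he
    have e5 : f = g := by
      funext m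
      by_cases hk : m = k
      · rw [hk, h3]
      by_cases hj : m = j
      · rw [hj, h2]
      by_cases hi : m = i
      · rw [hi, h1]
      have := congrFun h4 m
      simpa only [Function.update_of_ne hk, Function.update_of_ne hj, Function.update_of_ne hi]
        using this
    have e6 : z = z' := by
      have := congrFun h4 k
      simpa only [Function.update_self] using this
    have e7 : y = y' := by
      have := congrFun h4 j
      simpa only [Function.update_of_ne hjk, Function.update_self] using this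
    have e8 : x = x' := by
      have := congrFun h4 i
      simpa only [Function.update_of_ne hik, Function.update_of_ne hij, Function.update_self]
        using this
    rw [e5, e6, e7, e8]

theorem exists_good (u : ι → Finset V) (L C P : ℕ) (hι : Fintype.card ι = 2 ^ L)
    (hP : 3 * (L * C) + 3 * L + 2 ≤ P) (hu : ∀ i, 2 ^ (2 * L + 1) ≤ (u i).card)
    (hsp : ∀ i j k, i ≠ j → i ≠ k → j ≠ k → 2 ^ P * ec rd (u i) (u j) (u k) ≤
        2 ^ (3 * (L * C)) * ((u i).card * (u j).card * (u k).card)) :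
    ∃ f : ι → V, Function.Injective f ∧
      ∀ i j k, i ≠ j → i ≠ k → j ≠ k → ¬ rd (f i) (f j) (f k) := by
  by_contra hcon
  push Not at hcon
  set N : ℕ := (Fintype.piFinset u).card with hN
  have hpos : ∀ i, 0 < (u i).card := fun i => lt_of_lt_of_le (by positivity) (hu i)
  have hNpos : 0 < N := by
    rw [hN, Fintype.card_piFinset]
    exact Finset.prod_pos fun i _ => hpos i
  set E2 : Finset (ι × ι) := Finset.univ.filter (fun q : ι × ι => q.1 ≠ q.2) with hE2
  set E3 : Finset (ι × ι × ι) :=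
    Finset.univ.filter (fun q : ι × ι × ι => q.1 ≠ q.2.1 ∧ q.1 ≠ q.2.2 ∧ q.2.1 ≠ q.2.2) with hE3
  set B2 : ι × ι → Finset (ι → V) :=
    fun q => (Fintype.piFinset u).filter (fun f => f q.1 = f q.2) with hB2
  set B3 : ι × ι × ι → Finset (ι → V) :=
    fun q => (Fintype.piFinset u).filter (fun f => rd (f q.1) (f q.2.1) (f q.2.2)) with hB3
  have hcov : Fintype.piFinset u ⊆ E2.biUnion B2 ∪ E3.biUnion B3 := by
    intro f hf
    rw [Finset.mem_union, Finset.mem_biUnion, Finset.mem_biUnion]
    by_cases hinj : Function.Injective f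
    · obtain ⟨i, j, k, h1, h2, h3, h4⟩ := hcon f hinj
      right
      refine ⟨(i, j, k), ?_, ?_⟩
      · rw [hE3, Finset.mem_filter]
        exact ⟨Finset.mem_univ _, h1, h2, h3⟩
      · rw [hB3, Finset.mem_filter]
        exact ⟨hf, h4⟩
    · left
      rw [Function.Injective] at hinj
      push Not at hinj
      obtain ⟨i, j, h1, h2⟩ := hinj
      refine ⟨(i, j), ?_, ?_⟩
      · rw [hE2, Finset.mem_filter]
        exact ⟨Finset.mem_univ _, h2⟩
      · rw [hB2, Finset.mem_filter]
        exact ⟨hf, h1⟩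
  have hle : N ≤ ∑ q ∈ E2, (B2 q).card + ∑ q ∈ E3, (B3 q).card :=
    (Finset.card_le_card hcov).trans ((Finset.card_union_le _ _).trans
      (Nat.add_le_add Finset.card_biUnion_le Finset.card_biUnion_le))
  have hb2 : 2 * ∑ q ∈ E2, (B2 q).card ≤ N := by
    have h1 : ∀ q ∈ E2, 2 ^ (2 * L + 1) * (B2 q).card ≤ N := by
      intro q hq
      rw [hE2, Finset.mem_filter] at hq
      calc 2 ^ (2 * L + 1) * (B2 q).card ≤ (u q.1).card * (B2 q).card :=
            Nat.mul_le_mul_right _ (hu q.1)
        _ = (B2 q).card * (u q.1).card := mul_comm _ _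
        _ ≤ N := card_eq_pair u hq.2
    have h2 : 2 ^ (2 * L + 1) * ∑ q ∈ E2, (B2 q).card ≤ 2 ^ (2 * L) * N := by
      rw [Finset.mul_sum]
      calc ∑ q ∈ E2, 2 ^ (2 * L + 1) * (B2 q).card ≤ ∑ _q ∈ E2, N := Finset.sum_le_sum h1
        _ = E2.card * N := by rw [Finset.sum_const, smul_eq_mul]
        _ ≤ 2 ^ (2 * L) * N := by
            refine Nat.mul_le_mul_right _ ?_
            calc E2.card ≤ (Finset.univ : Finset (ι × ι)).card := Finset.card_filter_le _ _
              _ = 2 ^ (2 * L) := by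
                  rw [Finset.card_univ, Fintype.card_prod, hι, ← pow_add]
                  ring_nf
    refine Nat.le_of_mul_le_mul_left ?_ (show 0 < 2 ^ (2 * L) by positivity)
    calc 2 ^ (2 * L) * (2 * ∑ q ∈ E2, (B2 q).card) = 2 ^ (2 * L + 1) * ∑ q ∈ E2, (B2 q).card := by
          rw [pow_succ]; ring
      _ ≤ 2 ^ (2 * L) * N := h2
  have hb3 : 4 * ∑ q ∈ E3, (B3 q).card ≤ N := by
    have h1 : ∀ q ∈ E3, 2 ^ (3 * L + 2) * (B3 q).card ≤ N := by
      intro q hq
      rw [hE3, Finset.mem_filter] at hq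
      obtain ⟨-, q1, q2, q3⟩ := hq
      set m := (u q.1).card * (u q.2.1).card * (u q.2.2).card with hm
      have hmpos : 0 < m := Nat.mul_pos (Nat.mul_pos (hpos _) (hpos _)) (hpos _)
      have h3 : (B3 q).card * m ≤ ec rd (u q.1) (u q.2.1) (u q.2.2) * N :=
        card_eq_triple u q1 q2 q3
      have h4 := hsp q.1 q.2.1 q.2.2 q1 q2 q3
      have h5 : 2 ^ (3 * (L * C)) * (2 ^ (3 * L + 2) * (B3 q).card) * m ≤
          2 ^ (3 * (L * C)) * N * m := by
        calc 2 ^ (3 * (L * C)) * (2 ^ (3 * L + 2) * (B3 q).card) * m =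
              2 ^ (3 * (L * C) + 3 * L + 2) * ((B3 q).card * m) := by
                rw [show 3 * (L * C) + 3 * L + 2 = 3 * (L * C) + (3 * L + 2) by ring, pow_add]
                ring
          _ ≤ 2 ^ P * (ec rd (u q.1) (u q.2.1) (u q.2.2) * N) :=
              Nat.mul_le_mul (Nat.pow_le_pow_right (by norm_num) hP) h3
          _ = (2 ^ P * ec rd (u q.1) (u q.2.1) (u q.2.2)) * N := by ring
          _ ≤ (2 ^ (3 * (L * C)) * m) * N := Nat.mul_le_mul_right _ h4
          _ = 2 ^ (3 * (L * C)) * N * m := by ring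
      exact Nat.le_of_mul_le_mul_left (Nat.le_of_mul_le_mul_right h5 hmpos) (by positivity)
    have h2 : 2 ^ (3 * L + 2) * ∑ q ∈ E3, (B3 q).card ≤ 2 ^ (3 * L) * N := by
      rw [Finset.mul_sum]
      calc ∑ q ∈ E3, 2 ^ (3 * L + 2) * (B3 q).card ≤ ∑ _q ∈ E3, N := Finset.sum_le_sum h1
        _ = E3.card * N := by rw [Finset.sum_const, smul_eq_mul]
        _ ≤ 2 ^ (3 * L) * N := by
            refine Nat.mul_le_mul_right _ ?_
            calc E3.card ≤ (Finset.univ : Finset (ι × ι × ι)).card := Finset.card_filter_le _ _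
              _ = 2 ^ (3 * L) := by
                  rw [Finset.card_univ, Fintype.card_prod, Fintype.card_prod, hι, ← pow_add,
                    ← pow_add]
                  ring_nf
    refine Nat.le_of_mul_le_mul_left ?_ (show 0 < 2 ^ (3 * L) by positivity)
    calc 2 ^ (3 * L) * (4 * ∑ q ∈ E3, (B3 q).card) = 2 ^ (3 * L + 2) * ∑ q ∈ E3, (B3 q).card := by
          rw [pow_add]; ring
      _ ≤ 2 ^ (3 * L) * N := h2
  omega

end Tree

open Pool.Agent.DXR.Tree in
theorem TREE_thm : S_TREE := by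
  classical
  intro V rd L hr hB U C P hP hU
  by_contra hcon
  push Not at hcon
  have hmut : ∀ U' : Finset V, Big (L * C) U' U → Mut rd C P U' := hcon
  obtain ⟨u, hu, hsp⟩ := leaves hr C P L U hmut
  have hcard : ∀ i, 2 ^ (2 * L + 1) ≤ (u i).card := by
    intro i
    have h1 := hU.trans (hu i).2
    rw [show L * C + 2 * L + 1 = L * C + (2 * L + 1) by ring, pow_add] at h1
    exact Nat.le_of_mul_le_mul_left h1 (by positivity)
  obtain ⟨f, hf, hbl⟩ := exists_good u L C P (Fintype.card_fin _)
    (by rw [← mul_assoc]; exact hP) hcard hsp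
  obtain ⟨x, hx, y, hy, z, hz, hxyz⟩ := hB (Finset.univ.image f) (by
    rw [Finset.card_image_of_injective _ hf, Finset.card_univ, Fintype.card_fin])
  obtain ⟨i, -, rfl⟩ := Finset.mem_image.1 hx
  obtain ⟨j, -, rfl⟩ := Finset.mem_image.1 hy
  obtain ⟨k, -, rfl⟩ := Finset.mem_image.1 hz
  refine hbl i j k ?_ ?_ ?_ hxyz
  · rintro rfl
    exact hr.ne12 _ _ _ hxyz rfl
  · rintro rfl
    exact hr.ne12 _ _ _ (hr.swap23 _ _ _ hxyz) rfl
  · rintro rfl
    exact hr.ne12 _ _ _ (hr.swap23 _ _ _ (hr.swap12 _ _ _ hxyz)) rfl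

end Pool.Agent.DXR
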